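import Pool.Agent.SR32.Quot

/-!
# PL3/ClsS14: classes in the orbits of the automorphism group (helper14)
-/

set_option autoImplicit false

namespace PL3.S14

open Matrix

universe u

/-- An orbit of the automorphism group consists of at most `|Out|` classes. -/
theorem class_le (S : Type u) [Group S] [Finite S] :
    Nat.card (ConjClasses S) ≤ SR32.om S * (MulAut.conj : S →* MulAut S).range.index := by
  classical
  have hfin : Finite (MulAction.orbitRel.Quotient (MulAut S) S) := Quotient.finite _
  have hfinA : Finite (MulAut S) :=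
    Finite.of_injective (fun φ : MulAut S => (φ : S → S)) DFunLike.coe_injective
  have hx : ∀ c : ConjClasses S, ∃ φ : MulAut S,
      ConjClasses.mk (φ (Quotient.out (Quotient.mk'' (Quotient.out c) :
        MulAction.orbitRel.Quotient (MulAut S) S))) = c := by
    intro c
    have h1 : (Quotient.mk'' (Quotient.out (Quotient.mk'' (Quotient.out c) :
        MulAction.orbitRel.Quotient (MulAut S) S)) : MulAction.orbitRel.Quotient (MulAut S) S) =
        Quotient.mk'' (Quotient.out c) := Quotient.out_eq' _
    have h2 := Quotient.exact' h1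
    rw [MulAction.orbitRel_apply] at h2
    obtain ⟨φ, hφ⟩ := h2
    refine ⟨φ⁻¹, ?_⟩
    rw [← hφ]
    have h3 : (φ⁻¹ : MulAut S) ((fun m : MulAut S => m • Quotient.out c) φ) = Quotient.out c := by
      show (φ⁻¹ * φ : MulAut S) (Quotient.out c) = Quotient.out c
      rw [inv_mul_cancel]
      rfl
    rw [h3]
    exact Quotient.out_eq c
  choose φ hφ using hx
  have hinj : Function.Injective (fun c : ConjClasses S =>
      ((Quotient.mk'' (Quotient.out c) : MulAction.orbitRel.Quotient (MulAut S) S),
        (QuotientGroup.mk (φ c) : MulAut S ⧸ (MulAut.conj : S →* MulAut S).range))) := by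
    intro c c' hcc
    have h1 : (Quotient.mk'' (Quotient.out c) : MulAction.orbitRel.Quotient (MulAut S) S) =
        Quotient.mk'' (Quotient.out c') := congrArg Prod.fst hcc
    have h2 : (QuotientGroup.mk (φ c) : MulAut S ⧸ (MulAut.conj : S →* MulAut S).range) =
        QuotientGroup.mk (φ c') := congrArg Prod.snd hcc
    rw [QuotientGroup.eq] at h2
    obtain ⟨g, hg⟩ := h2
    have h3 : φ c' = φ c * MulAut.conj g := by rw [hg, mul_inv_cancel_left]
    rw [← hφ c, ← hφ c', ← h1, h3]
    generalize Quotient.out (Quotient.mk'' (Quotient.out c) :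
        MulAction.orbitRel.Quotient (MulAut S) S) = r
    rw [ConjClasses.mk_eq_mk_iff_isConj, isConj_iff]
    refine ⟨φ c g, ?_⟩
    show φ c g * φ c r * (φ c g)⁻¹ = φ c (MulAut.conj g r)
    rw [MulAut.conj_apply, map_mul, map_mul, map_inv]
  have h := Nat.card_le_card_of_injective _ hinj
  rw [Nat.card_prod] at h
  exact h

end PL3.S14
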