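import Pool.Agent.PL3.Defs

/-!
# PL3/ClsS58: lower bound for the number of conjugacy classes (helper58)
-/

set_option autoImplicit false

namespace PL3.S58

open Matrix PL3

universe u

/-- the matrix with trace `x` -/
def tM {F : Type u} [Field F] (x : F) : SpecialLinearGroup (Fin 2) F :=
  ⟨!![x, -1; 1, 0], by simp [Matrix.det_fin_two]⟩

theorem tr_conj {F : Type u} [Field F] {A B : SpecialLinearGroup (Fin 2) F}
    (h : IsConj (QuotientGroup.mk A : PS F) (QuotientGroup.mk B : PS F)) :
    (A : Matrix (Fin 2) (Fin 2) F).trace ^ 2 = (B : Matrix (Fin 2) (Fin 2) F).trace ^ 2 := by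
  obtain ⟨c, hc⟩ := isConj_iff.1 h
  obtain ⟨C, rfl⟩ := QuotientGroup.mk_surjective c
  have h1 : (QuotientGroup.mk (C * A * C⁻¹) : PS F) = QuotientGroup.mk B := hc
  rw [QuotientGroup.eq] at h1
  obtain ⟨r, hr, hZ⟩ := Matrix.SpecialLinearGroup.mem_center_iff.1 h1
  have h2 : B = (C * A * C⁻¹) * ((C * A * C⁻¹)⁻¹ * B) := by group
  have h3 : (B : Matrix (Fin 2) (Fin 2) F) = (C * A * C⁻¹ : SpecialLinearGroup (Fin 2) F) *
      (((C * A * C⁻¹)⁻¹ * B : SpecialLinearGroup (Fin 2) F) : Matrix (Fin 2) (Fin 2) F) := by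
    rw [← Matrix.SpecialLinearGroup.coe_mul, ← h2]
  rw [← hZ] at h3
  have h4 : ((C * A * C⁻¹ : SpecialLinearGroup (Fin 2) F) : Matrix (Fin 2) (Fin 2) F).trace =
      (A : Matrix (Fin 2) (Fin 2) F).trace := by
    rw [Matrix.SpecialLinearGroup.coe_mul, Matrix.trace_mul_comm, ← Matrix.SpecialLinearGroup.coe_mul]
    have : C⁻¹ * (C * A) = A := by group
    rw [this]
  have h5 : (B : Matrix (Fin 2) (Fin 2) F).trace = r * (A : Matrix (Fin 2) (Fin 2) F).trace := by
    rw [h3, ← h4]
    have e : (Matrix.scalar (Fin 2)) r = r • (1 : Matrix (Fin 2) (Fin 2) F) := by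
      ext i j
      simp [Matrix.scalar_apply, Matrix.diagonal_apply, Matrix.one_apply]
    rw [e, Matrix.mul_smul, Matrix.trace_smul, mul_one, smul_eq_mul]
  rw [h5, mul_pow]
  rw [Fintype.card_fin] at hr
  rw [hr, one_mul]

theorem class_ge (F : Type u) [Field F] [Finite F] :
    Nat.card F ≤ 2 * Nat.card (ConjClasses (PS F)) := by
  classical
  have hf : Finite (PS F) := inferInstance
  have hfc : Finite (ConjClasses (PS F)) := inferInstance
  cases nonempty_fintype F
  cases nonempty_fintype (ConjClasses (PS F))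
  rw [Nat.card_eq_fintype_card, Nat.card_eq_fintype_card, ← Finset.card_univ, ← Finset.card_univ]
  refine Finset.card_le_mul_card_image_of_maps_to
    (f := fun x : F => ConjClasses.mk (QuotientGroup.mk (tM x) : PS F))
    (fun _ _ => Finset.mem_univ _) 2 ?_
  intro b _
  rcases (Finset.univ.filter (fun x : F =>
    ConjClasses.mk (QuotientGroup.mk (tM x) : PS F) = b)).eq_empty_or_nonempty with h | ⟨x, hx⟩
  · rw [h]
    simp
  · refine (Finset.card_le_card (t := {x, -x}) ?_).trans Finset.card_le_two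
    intro y hy
    rw [Finset.mem_filter] at hx hy
    have h1 := ConjClasses.mk_eq_mk_iff_isConj.1 (hy.2.trans hx.2.symm)
    have h2 := tr_conj h1
    have h3 : ∀ z : F, ((tM z : SpecialLinearGroup (Fin 2) F) :
        Matrix (Fin 2) (Fin 2) F).trace = z := by
      intro z
      simp [tM, Matrix.trace_fin_two]
    rw [h3, h3] at h2
    rw [Finset.mem_insert, Finset.mem_singleton]
    exact sq_eq_sq_iff_eq_or_eq_neg.1 h2

end PL3.S58
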