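import Pool.Agent.PL3.Defs
import Pool.Agent.SR32.Quot

/-!
# PL3/ClsS76: element orders of the automorphism group
-/

set_option autoImplicit false

namespace PL3.S76

open Matrix

universe u

/-- orders in an image are orders in the group -/
theorem oo_range_le {S T : Type u} [Group S] [Finite S] [Group T] (f : S →* T) :
    SR32.oo f.range ≤ SR32.oo S := by
  unfold SR32.oo
  refine Set.ncard_le_ncard ?_ (Set.finite_range _)
  rintro _ ⟨⟨_, s, rfl⟩, rfl⟩
  have hdvd : orderOf (f s) ∣ orderOf s := orderOf_map_dvd f s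
  obtain ⟨k, hk⟩ := hdvd
  have hpos : 0 < orderOf s := orderOf_pos s
  have hk0 : k ≠ 0 := by
    rintro rfl
    rw [mul_zero] at hk
    omega
  have hf0 : orderOf (f s) ≠ 0 := by
    intro h
    rw [h, zero_mul] at hk
    omega
  refine ⟨s ^ k, ?_⟩
  show orderOf (s ^ k) = orderOf (⟨f s, s, rfl⟩ : f.range)
  rw [← Subgroup.orderOf_coe, orderOf_pow_of_dvd hk0 (Dvd.intro_left _ hk.symm), hk]
  exact Nat.mul_div_cancel _ (Nat.pos_of_ne_zero hk0)

theorem oo_le_card (G : Type u) [Group G] [Finite G] : SR32.oo G ≤ Nat.card G := by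
  unfold SR32.oo
  rw [← Set.image_univ]
  refine (Set.ncard_image_le (Set.toFinite _)).trans ?_
  rw [Set.ncard_univ]

theorem oo_aut_le (S : Type u) [Group S] [Finite S] :
    SR32.oo (MulAut S) ≤ (MulAut.conj : S →* MulAut S).range.index * SR32.oo S := by
  have : (MulAut.conj : S →* MulAut S).range.Normal := by
    refine ⟨?_⟩
    rintro _ ⟨s, rfl⟩ φ
    refine ⟨φ s, ?_⟩
    ext x
    simp [MulAut.conj_apply, MulAut.mul_apply, MulAut.inv_apply]
  refine (SR32.oo_le_mul (MulAut.conj : S →* MulAut S).range).trans ?_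
  refine Nat.mul_le_mul ?_ (oo_range_le _)
  exact oo_le_card _

end PL3.S76
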