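import Pool.Agent.PL3.Defs
import Pool.Agent.SR32.Quot
import Pool.Agent.PL3.ClsS76
import Pool.Agent.PL3.ClsS14
import Pool.Agent.PL3.ClsS58

/-!
# PL3/Cls (STUB): conjugacy classes
-/

set_option autoImplicit false

namespace PL3

open Matrix

universe u

/-- PROOF. The square of the trace is a class function on `PS F`; `!![x, -1; 1, 0]` has trace `x`; at least half of the elements of `F` are squares. -/
theorem class_ge (F : Type u) [Field F] [Finite F] :
    Nat.card F ≤ 2 * Nat.card (ConjClasses (PS F)) :=
  S58.class_ge F

/-- PROOF. An orbit of the automorphism group consists of at most `|Out|` classes. -/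
theorem class_le (S : Type u) [Group S] [Finite S] :
    Nat.card (ConjClasses S) ≤ SR32.om S * (MulAut.conj : S →* MulAut S).range.index :=
  S14.class_le S

/-- PROOF. `SR32.oo_le_mul`; the range of `conj` is an image of `S`. -/
theorem oo_aut_le (S : Type u) [Group S] [Finite S] :
    SR32.oo (MulAut S) ≤ (MulAut.conj : S →* MulAut S).range.index * SR32.oo S :=
  S76.oo_aut_le S

end PL3
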