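import Pool.Agent.PL3.Defs
import Pool.Agent.SR32.Quot

/-!
# PL3/ClsS38: conjugacy classes and orbits (helper38)
-/

set_option autoImplicit false

namespace PL3.S38

open Matrix

universe u

theorem class_le (S : Type u) [Group S] [Finite S] :
    Nat.card (ConjClasses S) ≤ SR32.om S * (MulAut.conj : S →* MulAut S).range.index := by
  classical
  have hfA : Finite (MulAut S) := inferInstance
  have hfO : Finite (MulAction.orbitRel.Quotient (MulAut S) S) := Quotient.finite _
  -- representatives of the classes and of the orbits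
  have hrep : ∀ c : ConjClasses S, ∃ x : S, ConjClasses.mk x = c := ConjClasses.exists_rep
  choose X hX using hrep
  have horb : ∀ x : S, ∃ α : MulAut S,
      α (Quotient.out (Quotient.mk'' x : MulAction.orbitRel.Quotient (MulAut S) S)) = x := by
    intro x
    have h1 : (Quotient.mk'' x : MulAction.orbitRel.Quotient (MulAut S) S) =
        Quotient.mk'' (Quotient.out (Quotient.mk'' x : MulAction.orbitRel.Quotient (MulAut S) S)) :=
      (Quotient.out_eq' _).symm
    have h2 := Quotient.exact' h1
    obtain ⟨α, hα⟩ := MulAction.mem_orbit_iff.1 (MulAction.orbitRel_apply.1 h2)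
    exact ⟨α, hα⟩
  choose α hα using horb
  let f : ConjClasses S → MulAction.orbitRel.Quotient (MulAut S) S ×
      (MulAut S ⧸ (MulAut.conj : S →* MulAut S).range) :=
    fun c => (Quotient.mk'' (X c), QuotientGroup.mk (α (X c)))
  have hf : Function.Injective f := by
    intro c d hcd
    have h1 : (Quotient.mk'' (X c) : MulAction.orbitRel.Quotient (MulAut S) S) =
        Quotient.mk'' (X d) := congrArg Prod.fst hcd
    have h2 : (QuotientGroup.mk (α (X c)) : MulAut S ⧸ (MulAut.conj : S →* MulAut S).range) =
        QuotientGroup.mk (α (X d)) := congrArg Prod.snd hcd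
    rw [QuotientGroup.eq] at h2
    obtain ⟨s, hs⟩ := h2
    have h3 : α (X d) = α (X c) * MulAut.conj s := by
      rw [hs, mul_inv_cancel_left]
    have h4 := hα (X c)
    have h5 := hα (X d)
    rw [← h1, h3] at h5
    have h6 : (α (X c)) s * X c * (α (X c) s)⁻¹ = X d := by
      rw [← h5]
      show (α (X c)) s * X c * (α (X c) s)⁻¹ = (α (X c)) (s * _ * s⁻¹)
      rw [map_mul, map_mul, map_inv, h4]
    rw [← hX c, ← hX d]
    apply ConjClasses.mk_eq_mk_iff_isConj.2
    exact isConj_iff.2 ⟨_, h6⟩
  have h := Nat.card_le_card_of_injective f hf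
  rw [Nat.card_prod] at h
  exact h

end PL3.S38
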