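import Pool.Agent.PL3.Defs
import Pool.Agent.SR32.Quot

/-!
# PL3/ClsS60: `oo_aut_le`
-/

set_option autoImplicit false

namespace PL3.S60

open Matrix

universe u

theorem oo_le_of_surjective {G K : Type*} [Group G] [Group K] [Finite G] (f : G →* K)
    (hf : Function.Surjective f) : SR32.oo K ≤ SR32.oo G := by
  unfold SR32.oo
  refine Set.ncard_le_ncard ?_ (Set.toFinite _)
  rintro _ ⟨k, rfl⟩
  obtain ⟨g, rfl⟩ := hf k
  obtain ⟨m, hm⟩ := orderOf_map_dvd f g
  have h2 : 0 < orderOf g := orderOf_pos g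
  have h3 : 0 < m := by
    rcases Nat.eq_zero_or_pos m with h | h
    · rw [h, mul_zero] at hm
      omega
    · exact h
  refine ⟨g ^ m, ?_⟩
  show orderOf (g ^ m) = orderOf (f g)
  rw [orderOf_pow_of_dvd (Nat.pos_iff_ne_zero.1 h3) (hm ▸ Dvd.intro_left _ rfl), hm,
    Nat.mul_div_cancel _ h3]

theorem oo_le_card {G : Type*} [Group G] [Finite G] : SR32.oo G ≤ Nat.card G := by
  unfold SR32.oo
  rw [← Nat.card_coe_set_eq]
  exact Finite.card_range_le (fun g : G => orderOf g)

theorem oo_aut_le (S : Type u) [Group S] [Finite S] :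
    SR32.oo (MulAut S) ≤ (MulAut.conj : S →* MulAut S).range.index * SR32.oo S := by
  have hfin : Finite (MulAut S) := Finite.of_injective (fun φ : MulAut S => (φ : S → S))
    DFunLike.coe_injective
  have hn : (MulAut.conj : S →* MulAut S).range.Normal := by
    constructor
    rintro _ ⟨s, rfl⟩ φ
    refine ⟨φ s, ?_⟩
    ext y
    simp [MulAut.conj_apply, MulAut.mul_apply]
  have h1 := SR32.oo_le_mul (MulAut.conj : S →* MulAut S).range
  refine h1.trans (Nat.mul_le_mul ?_ ?_)
  · exact oo_le_card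
  · exact oo_le_of_surjective (MulAut.conj : S →* MulAut S).rangeRestrict
      (MulAut.conj : S →* MulAut S).rangeRestrict_surjective

end PL3.S60
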