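import Mathlib

/-!
# PL3/Defs: elements of the projective special linear group of degree two
-/

set_option autoImplicit false

namespace PL3

open Matrix

universe u

/-- The group `PSL (2, F)`. -/
abbrev PS (F : Type u) [Field F] : Type u := Matrix.ProjectiveSpecialLinearGroup (Fin 2) F

section

variable {F : Type u} [Field F]

/-- upper unitriangular matrix -/
def uM (x : F) : SpecialLinearGroup (Fin 2) F := ⟨!![1, x; 0, 1], by simp [Matrix.det_fin_two]⟩

/-- lower unitriangular matrix -/
def vM (x : F) : SpecialLinearGroup (Fin 2) F := ⟨!![1, 0; x, 1], by simp [Matrix.det_fin_two]⟩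

/-- diagonal matrix -/
def hM (a : Fˣ) : SpecialLinearGroup (Fin 2) F :=
  ⟨!![(a : F), 0; 0, ((a⁻¹ : Fˣ) : F)], by simp [Matrix.det_fin_two]⟩

/-- the matrix of the element that interchanges the two lines -/
def wM : SpecialLinearGroup (Fin 2) F := ⟨!![0, 1; -1, 0], by simp [Matrix.det_fin_two]⟩

/-- image of an upper unitriangular matrix -/
def u (x : F) : PS F := QuotientGroup.mk (uM x)

/-- image of a lower unitriangular matrix -/
def v (x : F) : PS F := QuotientGroup.mk (vM x)

/-- image of a diagonal matrix -/
def h (a : Fˣ) : PS F := QuotientGroup.mk (hM a)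

/-- image of `wM` -/
def w : PS F := QuotientGroup.mk wM

/-- `α` maps the upper and the lower unitriangular matrices to themselves -/
def Good (α : MulAut (PS F)) : Prop :=
  (∀ x, ∃ y, α (u x) = u y) ∧ ∀ x, ∃ y, α (v x) = v y

end

end PL3
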