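import Pool.Agent.Pal.Divisor

/-!
# PL3/DivS10: the number of divisors and the final inequality
-/

set_option autoImplicit false

namespace PL3.S10

open Filter Topology

theorem tau_pow (k : ℕ) : ∃ C : ℕ, 1 ≤ C ∧ ∀ n : ℕ, 1 ≤ n → n.divisors.card ^ k ≤ C * n := by
  rcases Nat.eq_zero_or_pos k with hk | hk
  · refine ⟨1, le_rfl, fun n hn => ?_⟩
    rw [hk, pow_zero]
    omega
  · have hkR : (0 : ℝ) < k := by exact_mod_cast hk
    obtain ⟨C, hC1, hC⟩ := Pool.Agent.Pal.card_divisors_le_rpow (η := 1 / (k : ℝ)) (by positivity)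
    refine ⟨⌈C ^ k⌉₊, ?_, fun n hn => ?_⟩
    · apply Nat.one_le_iff_ne_zero.mpr
      intro h0
      have h1 := Nat.le_ceil (C ^ k)
      rw [h0] at h1
      have h2 : (1 : ℝ) ≤ C ^ k := one_le_pow₀ hC1
      push_cast at h1
      linarith
    · have h1 := hC n hn
      have h2 : ((n.divisors.card : ℝ)) ^ k ≤ (C * (n : ℝ) ^ (1 / (k : ℝ))) ^ k :=
        pow_le_pow_left₀ (Nat.cast_nonneg _) h1 k
      have h3 : ((n : ℝ) ^ (1 / (k : ℝ))) ^ k = n := by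
        rw [← Real.rpow_natCast, ← Real.rpow_mul (Nat.cast_nonneg n)]
        have : 1 / (k : ℝ) * (k : ℝ) = 1 := by field_simp
        rw [this, Real.rpow_one]
      rw [mul_pow, h3] at h2
      have h4 : ((n.divisors.card ^ k : ℕ) : ℝ) ≤ ((⌈C ^ k⌉₊ * n : ℕ) : ℝ) := by
        push_cast
        refine h2.trans ?_
        exact mul_le_mul_of_nonneg_right (Nat.le_ceil _) (Nat.cast_nonneg n)
      exact_mod_cast h4

theorem log_sq_lt (K : ℕ) : ∃ q0 : ℕ, 1 ≤ q0 ∧ ∀ q : ℕ, q0 ≤ q → K * (Nat.log 2 q) ^ 2 < q := by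
  have h1 := tendsto_pow_const_div_const_pow_of_one_lt 2 (r := (2 : ℝ)) (by norm_num)
  have h2 : ∀ᶠ n : ℕ in atTop, ((n : ℝ)) ^ 2 / 2 ^ n < 1 / (K + 1) :=
    (tendsto_order.1 h1).2 _ (by positivity)
  obtain ⟨l0, hl0⟩ := eventually_atTop.1 h2
  refine ⟨2 ^ l0, Nat.one_le_two_pow, fun q hq => ?_⟩
  have hq0 : q ≠ 0 := by
    have := Nat.one_le_two_pow (n := l0)
    omega
  have hl : l0 ≤ Nat.log 2 q := Nat.le_log_of_pow_le (by norm_num) hq
  have h3 := hl0 _ hl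
  rw [div_lt_div_iff₀ (by positivity) (by positivity)] at h3
  have h4 : 2 ^ Nat.log 2 q ≤ q := Nat.pow_log_le_self 2 hq0
  have h4R : (2 : ℝ) ^ Nat.log 2 q ≤ q := by exact_mod_cast h4
  have h5 : ((K * (Nat.log 2 q) ^ 2 : ℕ) : ℝ) < (q : ℝ) := by
    push_cast
    nlinarith [sq_nonneg ((Nat.log 2 q : ℕ) : ℝ)]
  exact_mod_cast h5

theorem num_short (L : ℕ) : ∃ q0 : ℕ, ∀ q N o : ℕ, q0 ≤ q → 1 ≤ N → N ≤ q ^ 12 →
    (q - 1) / 2 - 2 ≤ 2 * Nat.log 2 q * o → N.divisors.card ^ L ≤ o := by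
  obtain ⟨C, hC1, hC⟩ := tau_pow (L * 24)
  obtain ⟨q0, -, hq0⟩ := log_sq_lt (121 * C)
  refine ⟨max q0 8, fun q N o hq hN hNq ho => ?_⟩
  have hq1 : q0 ≤ q := le_trans (le_max_left _ _) hq
  have hq8 : 8 ≤ q := le_trans (le_max_right _ _) hq
  by_contra hlt
  rw [not_le] at hlt
  set y := N.divisors.card ^ L with hy
  set l := Nat.log 2 q with hl
  have hl1 : 1 ≤ l := by
    rw [hl]
    exact Nat.le_log_of_pow_le (by norm_num) (by omega)
  have hy1 : 1 ≤ y := by omega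
  have h1 : y ^ 24 ≤ C * q ^ 12 := by
    have := hC N hN
    rw [pow_mul] at this
    exact this.trans (Nat.mul_le_mul_left _ hNq)
  have hly : 1 ≤ l * y := Nat.one_le_iff_ne_zero.mpr (by positivity)
  have h2 : q ≤ 11 * (l * y) := by
    have h3 : 2 * l * o ≤ 2 * (l * y) := by
      calc 2 * l * o ≤ 2 * l * y := Nat.mul_le_mul_left _ hlt.le
        _ = 2 * (l * y) := by ring
    omega
  have h3 : q ^ 24 ≤ (121 * C * l ^ 2) ^ 12 * q ^ 12 := by
    calc q ^ 24 ≤ (11 * (l * y)) ^ 24 := Nat.pow_le_pow_left h2 24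
      _ = (121 * l ^ 2) ^ 12 * y ^ 24 := by ring
      _ ≤ (121 * l ^ 2) ^ 12 * (C * q ^ 12) := Nat.mul_le_mul_left _ h1
      _ = (121 * l ^ 2) ^ 12 * C * q ^ 12 := by ring
      _ ≤ (121 * l ^ 2) ^ 12 * C ^ 12 * q ^ 12 := by
          apply Nat.mul_le_mul_right
          apply Nat.mul_le_mul_left
          exact Nat.le_self_pow (by norm_num) C
      _ = (121 * C * l ^ 2) ^ 12 * q ^ 12 := by ring
  have h4 : q ^ 12 * q ^ 12 ≤ (121 * C * l ^ 2) ^ 12 * q ^ 12 := by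
    rw [← pow_add]
    exact h3
  have h5 : q ^ 12 ≤ (121 * C * l ^ 2) ^ 12 :=
    Nat.le_of_mul_le_mul_right h4 (by positivity)
  have h6 : q ≤ 121 * C * l ^ 2 := (Nat.pow_le_pow_iff_left (by norm_num)).mp h5
  exact absurd (hq0 q hq1) (not_lt.mpr h6)

end PL3.S10
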