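import Pool.Agent.PL3.Mat

/-!
# PL3/GenS3: the automorphism group has order at most `q ^ 12`
-/

set_option autoImplicit false

namespace PL3.S3

open Matrix PL3

universe u

theorem all_of_closed {F : Type u} [Field F] [Finite F] (a : Fˣ)
    (ha : ∀ b : Fˣ, b ∈ Subgroup.zpowers a) (P : F → Prop) (h0 : P 0) (h1 : P 1)
    (hm : ∀ x, P x → P ((a : F) ^ 2 * x)) (hs : ∀ x y, P x → P y → P (x - y)) : ∀ x, P x := by
  have hpow : ∀ n : ℕ, P (((a : F) ^ n) ^ 2) := by
    intro n
    induction n with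
    | zero => simpa using h1
    | succ n ih =>
      have e : ((a : F) ^ (n + 1)) ^ 2 = (a : F) ^ 2 * ((a : F) ^ n) ^ 2 := by ring
      rw [e]
      exact hm _ ih
  have hsq : ∀ y : F, P (y ^ 2) := by
    intro y
    by_cases hy : y = 0
    · rw [hy]
      simpa using h0
    · have h3 := ha (Units.mk0 y hy)
      rw [← mem_powers_iff_mem_zpowers] at h3
      obtain ⟨n, hn⟩ := h3
      have h4 : (a : F) ^ n = y := by
        have := congrArg (fun z : Fˣ => (z : F)) hn
        simpa using this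
      rw [← h4]
      exact hpow n
  intro x
  by_cases h2' : (2 : F) = 0
  · have hft : Fintype F := Fintype.ofFinite F
    have hchar : ringChar F = 2 := by
      have h5 : ringChar F ∣ 2 := (ringChar.spec F 2).1 (by exact_mod_cast h2')
      have h6 : ringChar F ≠ 1 := CharP.ringChar_ne_one
      exact ((Nat.dvd_prime Nat.prime_two).1 h5).resolve_left h6
    obtain ⟨y, hy⟩ := FiniteField.isSquare_of_char_two hchar x
    rw [hy, ← sq]
    exact hsq y
  · have e : x = ((x + 1) / 2) ^ 2 - ((x - 1) / 2) ^ 2 := by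
      field_simp
      ring
    rw [e]
    exact hs _ _ (hsq _) (hsq _)

section
variable {F : Type u} [Field F]

theorem u_zero : (u 0 : PS F) = 1 := by
  have h1 : (u 0 : PS F) = u 0 * u 0 := by
    rw [← u_add, add_zero]
  exact (mul_eq_left.1 h1.symm)

theorem v_zero : (v 0 : PS F) = 1 := by
  have h1 : (v 0 : PS F) = v 0 * v 0 := by
    rw [← v_add, add_zero]
  exact (mul_eq_left.1 h1.symm)

theorem u_sub (x y : F) : u (x - y) = u x * (u y)⁻¹ := by
  rw [eq_mul_inv_iff_mul_eq, ← u_add, sub_add_cancel]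

theorem v_sub (x y : F) : v (x - y) = v x * (v y)⁻¹ := by
  rw [eq_mul_inv_iff_mul_eq, ← v_add, sub_add_cancel]

theorem sl_eq (A : SpecialLinearGroup (Fin 2) F) (hc : A.1 1 0 ≠ 0) :
    A = uM ((A.1 0 0 - 1) / A.1 1 0) * vM (A.1 1 0) * uM ((A.1 1 1 - 1) / A.1 1 0) := by
  have hdet := A.2
  rw [Matrix.det_fin_two] at hdet
  ext i j
  fin_cases i <;> fin_cases j <;>
    simp [uM, vM, Matrix.mul_apply, Fin.sum_univ_two] <;> field_simp <;>
    first | ring1 | linear_combination -hdet

theorem gen_UV (H : Subgroup (PS F)) (hu : ∀ x, u x ∈ H) (hv : ∀ x, v x ∈ H) : H = ⊤ := by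
  rw [eq_top_iff]
  intro g _
  obtain ⟨A, rfl⟩ := QuotientGroup.mk_surjective g
  have key : ∀ A : SpecialLinearGroup (Fin 2) F, A.1 1 0 ≠ 0 →
      (QuotientGroup.mk A : PS F) ∈ H := by
    intro A hc
    rw [sl_eq A hc]
    exact H.mul_mem (H.mul_mem (hu _) (hv _)) (hu _)
  by_cases hc : A.1 1 0 = 0
  · have hd : A.1 1 1 ≠ 0 := by
      intro h0
      have hdet := A.2
      rw [Matrix.det_fin_two, hc, h0] at hdet
      simp at hdet
    have h1 : (A * vM 1).1 1 0 ≠ 0 := by
      simp only [Matrix.SpecialLinearGroup.coe_mul, vM, Matrix.mul_apply, Fin.sum_univ_two]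
      simpa [hc] using hd
    have h2 := H.mul_mem (key _ h1) (H.inv_mem (hv 1))
    have h3 : (QuotientGroup.mk (A * vM 1) : PS F) * (v 1)⁻¹ = QuotientGroup.mk A := by
      rw [mul_inv_eq_iff_eq_mul]
      rfl
    rwa [h3] at h2
  · exact key A hc

end

theorem aut_inj {F : Type u} [Field F] [Finite F] (a : Fˣ)
    (ha : ∀ b : Fˣ, b ∈ Subgroup.zpowers a) (α β : MulAut (PS F)) (h1 : α (h a) = β (h a))
    (h2 : α (u 1) = β (u 1)) (h3 : α (v 1) = β (v 1)) : α = β := by
  have hU : ∀ x : F, α (u x) = β (u x) := by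
    refine all_of_closed a ha (fun x => α (u x) = β (u x)) ?_ h2 ?_ ?_
    · rw [u_zero, map_one, map_one]
    · intro x hx
      rw [← h_u, map_mul, map_mul, map_mul, map_mul, map_inv, map_inv, h1, hx]
    · intro x y hx hy
      rw [u_sub, map_mul, map_mul, map_inv, map_inv, hx, hy]
  have ha' : ∀ b : Fˣ, b ∈ Subgroup.zpowers a⁻¹ := by
    intro b
    rw [Subgroup.zpowers_inv]
    exact ha b
  have hV : ∀ x : F, α (v x) = β (v x) := by
    refine all_of_closed a⁻¹ ha' (fun x => α (v x) = β (v x)) ?_ h3 ?_ ?_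
    · rw [v_zero, map_one, map_one]
    · intro x hx
      rw [← h_v, map_mul, map_mul, map_mul, map_mul, map_inv, map_inv, h1, hx]
    · intro x y hx hy
      rw [v_sub, map_mul, map_mul, map_inv, map_inv, hx, hy]
  have hT := gen_UV (α.toMonoidHom.eqLocus β.toMonoidHom) hU hV
  ext g
  have hg : g ∈ α.toMonoidHom.eqLocus β.toMonoidHom := by
    rw [hT]
    exact Subgroup.mem_top g
  exact hg

theorem card_PS (F : Type u) [Field F] [Finite F] : Nat.card (PS F) ≤ Nat.card F ^ 4 := by
  have h1 : Nat.card (PS F) ≤ Nat.card (SpecialLinearGroup (Fin 2) F) :=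
    Nat.card_le_card_of_surjective _ QuotientGroup.mk_surjective
  have h2 : Nat.card (SpecialLinearGroup (Fin 2) F) ≤ Nat.card (Matrix (Fin 2) (Fin 2) F) :=
    Nat.card_le_card_of_injective (fun A => A.1) Subtype.coe_injective
  have h3 : Nat.card (Matrix (Fin 2) (Fin 2) F) = Nat.card F ^ 4 := by
    have e : Nat.card (Matrix (Fin 2) (Fin 2) F) = Nat.card (Fin 2 → Fin 2 → F) := rfl
    rw [e, Nat.card_fun, Nat.card_fun, Nat.card_fin, ← pow_mul]
  exact h1.trans (h2.trans h3.le)

theorem card_aut (F : Type u) [Field F] [Finite F] :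
    Nat.card (MulAut (PS F)) ≤ Nat.card F ^ 12 := by
  obtain ⟨a, ha⟩ := IsCyclic.exists_generator (α := Fˣ)
  have h1 : Nat.card (MulAut (PS F)) ≤ Nat.card (PS F × PS F × PS F) := by
    refine Nat.card_le_card_of_injective (fun α => (α (h a), α (u 1), α (v 1))) ?_
    intro α β e
    simp only [Prod.mk.injEq] at e
    exact aut_inj a ha α β e.1 e.2.1 e.2.2
  rw [Nat.card_prod, Nat.card_prod] at h1
  have h2 := card_PS F
  calc Nat.card (MulAut (PS F)) ≤ Nat.card (PS F) * (Nat.card (PS F) * Nat.card (PS F)) := h1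
    _ ≤ Nat.card F ^ 4 * (Nat.card F ^ 4 * Nat.card F ^ 4) := by gcongr
    _ = Nat.card F ^ 12 := by ring

end PL3.S3
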