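import Pool.Agent.PL3.MainS92

/-!
# PL3/Main: the groups `PSL (2, F)` satisfy the condition
-/

set_option autoImplicit false

namespace PL3

open Matrix

universe u

theorem psl_main (L : ℕ) : ∃ q0 : ℕ, ∀ (F : Type u) [Field F] [Finite F], q0 ≤ Nat.card F →
    SR32.oo (MulAut (Matrix.ProjectiveSpecialLinearGroup (Fin 2) F)) ^ L ≤
      SR32.om (Matrix.ProjectiveSpecialLinearGroup (Fin 2) F) :=
  S92.psl_main L

end PL3
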