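import Pool.Agent.PL3.NumPS3

/-!
# PL3/NumP: numbers
-/

set_option autoImplicit false

namespace PL3

theorem num_psl (L : ℕ) : ∃ q0 : ℕ, ∀ q : ℕ, q0 ≤ q →
    4 * Nat.log 2 q * ((2 * Nat.log 2 q) * ((q - 1).divisors.card + (q + 1).divisors.card + 4)) ^ L
      ≤ q := S3.num_psl L

end PL3
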