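import Pool.Agent.PL3.Defs
import Pool.Agent.SR32.Defs

set_option autoImplicit false

namespace PL3.S18

open Matrix

universe u

section

variable {F : Type u} [Field F]

theorem ch (A : Matrix (Fin 2) (Fin 2) F) (hA : A.det = 1) :
    A * A = (A 0 0 + A 1 1) • A - 1 := by
  rw [Matrix.det_fin_two] at hA
  ext i j
  fin_cases i <;> fin_cases j <;> simp [Matrix.mul_apply, Fin.sum_univ_two]
  · linear_combination -hA
  · ring
  · ring
  · linear_combination -hA

theorem pow_span (A : Matrix (Fin 2) (Fin 2) F) (hA : A.det = 1) (n : ℕ) :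
    ∃ x y : F, A ^ n = x • 1 + y • A := by
  induction n with
  | zero => exact ⟨1, 0, by simp⟩
  | succ n ih =>
    obtain ⟨x, y, hxy⟩ := ih
    refine ⟨-y, x + y * (A 0 0 + A 1 1), ?_⟩
    rw [pow_succ, hxy, add_mul, smul_mul_assoc, smul_mul_assoc, one_mul, ch A hA, smul_sub,
      smul_smul, add_smul, neg_smul]
    abel

theorem det_span (A : Matrix (Fin 2) (Fin 2) F) (hA : A.det = 1) (x y : F) :
    (x • (1 : Matrix (Fin 2) (Fin 2) F) + y • A).det = x ^ 2 + x * y * (A 0 0 + A 1 1) + y ^ 2 := by
  rw [Matrix.det_fin_two] at hA ⊢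
  simp
  linear_combination y ^ 2 * hA

theorem span_zero (A : Matrix (Fin 2) (Fin 2) F) (hA : A.det = 1)
    (hn : ∀ r : F, r ^ 2 - (A 0 0 + A 1 1) * r + 1 ≠ 0) (x y : F)
    (h0 : (x • (1 : Matrix (Fin 2) (Fin 2) F) + y • A).det = 0) : x = 0 ∧ y = 0 := by
  rw [det_span A hA] at h0
  by_cases hy : y = 0
  · subst hy
    simp at h0
    exact ⟨h0, rfl⟩
  · exfalso
    apply hn (-x / y)
    field_simp
    linear_combination h0

theorem pow_root (A : Matrix (Fin 2) (Fin 2) F) (r s : F)
    (h : A * A = (r + s) • A - (r * s) • 1) (n : ℕ) :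
    (A - r • 1) ^ (n + 1) = (s - r) ^ n • (A - r • 1) := by
  have h2 : (A - r • 1) * (A - r • 1) = (s - r) • (A - r • 1) := by
    rw [sub_mul, mul_sub, mul_sub, h]
    simp only [smul_mul_assoc, mul_smul_comm, one_mul, mul_one, smul_sub, smul_smul, sub_smul,
      add_smul]
    module
  induction n with
  | zero => simp
  | succ n ih =>
    rw [pow_succ, ih, smul_mul_assoc, h2, smul_smul, ← pow_succ]

end

theorem main_dvd {F : Type u} [Field F] [Finite F] (p : ℕ) [Fact p.Prime] [CharP F p]
    (A : Matrix (Fin 2) (Fin 2) F) (hA : A.det = 1) :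
    A ^ (Nat.card F - 1) = 1 ∨ A ^ (Nat.card F + 1) = 1 ∨ A ^ (2 * p) = 1 := by
  classical
  have := Fintype.ofFinite F
  have hp : p.Prime := Fact.out
  obtain ⟨f, -, hf⟩ := FiniteField.card F p
  have hq : Nat.card F = p ^ (f : ℕ) := by rw [Nat.card_eq_fintype_card, hf]
  have hq1 : 1 < Nat.card F := Finite.one_lt_card
  have hfr : ∀ x : F, x ^ Nat.card F = x := by
    intro x
    rw [Nat.card_eq_fintype_card]
    exact FiniteField.pow_card x
  have : CharP (Matrix (Fin 2) (Fin 2) F) p := inferInstance
  set t := A 0 0 + A 1 1 with ht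
  have hch := ch A hA
  rw [← ht] at hch
  have hAA : A * (t • 1 - A) = 1 := by
    rw [mul_sub, hch, mul_smul_comm, mul_one]
    abel
  have hAA' : (t • 1 - A) * A = 1 := by
    rw [sub_mul, hch, smul_mul_assoc, one_mul]
    abel
  have hinv : ∀ n, A ^ (n + 1) = A → A ^ n = 1 := by
    intro n hn
    calc A ^ n = A ^ n * (A * (t • 1 - A)) := by rw [hAA, mul_one]
      _ = A ^ (n + 1) * (t • 1 - A) := by rw [pow_succ, mul_assoc]
      _ = 1 := by rw [hn, hAA]
  by_cases hroot : ∃ r : F, r ^ 2 - t * r + 1 = 0
  · obtain ⟨r, hr⟩ := hroot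
    have h1 : A * A = (r + (t - r)) • A - (r * (t - r)) • 1 := by
      have e1 : r + (t - r) = t := by ring
      have e2 : r * (t - r) = 1 := by linear_combination -hr
      rw [e1, e2, one_smul, hch]
    have h2 := pow_root A r (t - r) h1
    by_cases hrs : t - r = r
    · right; right
      have hr2 : r ^ 2 = 1 := by
        have e2 : r * (t - r) = 1 := by linear_combination -hr
        rw [hrs] at e2
        rw [pow_two, e2]
      have h3 := h2 (p - 1)
      rw [hrs, sub_self, zero_pow (by have := hp.two_le; omega), zero_smul,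
        Nat.sub_add_cancel hp.one_lt.le] at h3
      have h4 : (A - r • 1) ^ p = A ^ p - (r • 1) ^ p := by
        have hc : Commute A (r • (1 : Matrix (Fin 2) (Fin 2) F)) :=
          (Commute.one_right A).smul_right r
        exact sub_pow_char_of_commute p hc
      rw [h4, sub_eq_zero, smul_pow, one_pow] at h3
      rw [mul_comm, pow_mul, h3, smul_pow, one_pow, ← pow_mul, mul_comm p 2, pow_mul, hr2,
        one_pow, one_smul]
    · left
      have h3 := h2 (Nat.card F - 1)
      rw [Nat.sub_add_cancel hq1.le] at h3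
      have hne : t - r - r ≠ 0 := sub_ne_zero.2 hrs
      have h5 : (t - r - r) ^ (Nat.card F - 1) = 1 := by
        rw [Nat.card_eq_fintype_card]
        exact FiniteField.pow_card_sub_one_eq_one _ hne
      have h4 : (A - r • 1) ^ Nat.card F = A ^ Nat.card F - (r • 1) ^ Nat.card F := by
        have hc : Commute A (r • (1 : Matrix (Fin 2) (Fin 2) F)) :=
          (Commute.one_right A).smul_right r
        rw [hq]
        exact sub_pow_char_pow_of_commute p f hc
      rw [h4, h5, one_smul, smul_pow, one_pow, hfr] at h3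
      have h6 : A ^ Nat.card F = A := by
        have := congrArg (fun M => M + r • (1 : Matrix (Fin 2) (Fin 2) F)) h3
        simpa using this
      apply hinv
      rw [Nat.sub_add_cancel hq1.le]
      exact h6
  · push Not at hroot
    obtain ⟨x, y, hB⟩ := pow_span A hA (Nat.card F)
    have hBB : A ^ Nat.card F * A ^ Nat.card F = t • A ^ Nat.card F - 1 := by
      have h1 : (A * A) ^ Nat.card F = A ^ Nat.card F * A ^ Nat.card F :=
        (Commute.refl A).mul_pow _
      rw [← h1, hch]
      have hc : Commute (t • A) (1 : Matrix (Fin 2) (Fin 2) F) := Commute.one_right _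
      have h2 : (t • A - 1) ^ Nat.card F = (t • A) ^ Nat.card F - 1 ^ Nat.card F := by
        rw [hq]
        exact sub_pow_char_pow_of_commute p f hc
      rw [h2, smul_pow, hfr, one_pow]
    have hcomm : A * A ^ Nat.card F = A ^ Nat.card F * A := by
      rw [← pow_succ', ← pow_succ]
    have hz : (A ^ Nat.card F - A) * (A ^ Nat.card F - (t • 1 - A)) = 0 := by
      rw [sub_mul, mul_sub (A ^ Nat.card F) (A ^ Nat.card F) (t • 1 - A),
        mul_sub A (A ^ Nat.card F) (t • 1 - A), hBB, hAA, hcomm,
        mul_sub (A ^ Nat.card F) (t • 1) A, mul_smul_comm, mul_one]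
      abel
    have hd := congrArg Matrix.det hz
    rw [Matrix.det_mul, Matrix.det_zero, mul_eq_zero] at hd
    rcases hd with hd | hd
    · left
      have e : A ^ Nat.card F - A = x • 1 + (y - 1) • A := by
        rw [hB, sub_smul, one_smul]; abel
      rw [e] at hd
      obtain ⟨hx, hy⟩ := span_zero A hA hroot _ _ hd
      apply hinv
      rw [Nat.sub_add_cancel hq1.le]
      rw [hx, hy, zero_smul, zero_smul, add_zero, sub_eq_zero] at e
      exact e
    · right; left
      have e : A ^ Nat.card F - (t • 1 - A) = (x - t) • 1 + (y + 1) • A := by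
        rw [hB]; module
      rw [e] at hd
      obtain ⟨hx, hy⟩ := span_zero A hA hroot _ _ hd
      rw [hx, hy, zero_smul, zero_smul, add_zero, sub_eq_zero] at e
      rw [pow_succ, e, hAA']

theorem oo_PS (F : Type u) [Field F] [Finite F] : SR32.oo (PS F) ≤
    (Nat.card F - 1).divisors.card + (Nat.card F + 1).divisors.card + 4 := by
  classical
  obtain ⟨p, hc⟩ := CharP.exists F
  have := hc
  have hpf : Fact p.Prime := ⟨CharP.char_is_prime F p⟩
  have hp : p.Prime := hpf.out
  have hq1 : 1 < Nat.card F := Finite.one_lt_card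
  have hsub : Set.range (fun g : PS F => orderOf g) ⊆
      ((Nat.card F - 1).divisors ∪ (Nat.card F + 1).divisors ∪ (2 * p).divisors : Finset ℕ) := by
    rintro _ ⟨g, rfl⟩
    induction g using QuotientGroup.induction_on with
    | H A =>
      have key := main_dvd p (A : Matrix (Fin 2) (Fin 2) F) A.2
      have hlift : ∀ n : ℕ, (A : Matrix (Fin 2) (Fin 2) F) ^ n = 1 →
          orderOf (QuotientGroup.mk A : PS F) ∣ n := by
        intro n hn
        apply orderOf_dvd_of_pow_eq_one
        have : A ^ n = 1 := by
          apply Subtype.ext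
          rw [Matrix.SpecialLinearGroup.coe_pow, hn, Matrix.SpecialLinearGroup.coe_one]
        rw [← QuotientGroup.mk_pow, this]
        rfl
      simp only [Finset.coe_union, Set.mem_union, Finset.mem_coe, Nat.mem_divisors]
      rcases key with h | h | h
      · left; left
        exact ⟨hlift _ h, by omega⟩
      · left; right
        exact ⟨hlift _ h, by omega⟩
      · right
        exact ⟨hlift _ h, by have := hp.pos; omega⟩
  unfold SR32.oo
  calc (Set.range (fun g : PS F => orderOf g)).ncard ≤
      ((Nat.card F - 1).divisors ∪ (Nat.card F + 1).divisors ∪ (2 * p).divisors).card := by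
        rw [← Set.ncard_coe_finset]
        exact Set.ncard_le_ncard hsub (Finset.finite_toSet _)
    _ ≤ _ := by
      have h4 : (2 * p).divisors.card ≤ 4 := by
        rw [Nat.divisors_mul]
        refine (Finset.card_mul_le).trans ?_
        rw [Nat.Prime.divisors Nat.prime_two, hp.divisors]
        have e1 : ({1, 2} : Finset ℕ).card ≤ 2 := Finset.card_le_two
        have e2 : ({1, p} : Finset ℕ).card ≤ 2 := Finset.card_le_two
        exact (Nat.mul_le_mul e1 e2)
      have h5 := Finset.card_union_le ((Nat.card F - 1).divisors ∪ (Nat.card F + 1).divisors)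
        (2 * p).divisors
      have h6 := Finset.card_union_le (Nat.card F - 1).divisors (Nat.card F + 1).divisors
      omega

end PL3.S18
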