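import Pool.Agent.PL3.Defs
import Pool.Agent.SR32.Defs
import Pool.Agent.PL3.OrdS18

/-!
# PL3/Ord: element orders
-/

set_option autoImplicit false

namespace PL3

open Matrix

universe u

/-- PROOF. `g` in `SL (2, F)`: if the characteristic polynomial `X^2 - t X + 1` has two different roots in `F` then `g ^ (q - 1) = 1`; if it is irreducible,
`g ^ (q + 1) = 1` (in `F[g]`, a field with `q ^ 2` elements, `g ^ q` is the other root, `g * g ^ q = 1`); if it is `(X - e) ^ 2`, `e = 1` or `-1`, then `(g - e) ^ 2 = 0`, `g ^ p = e ^ p`, `g ^ (2 p) = 1`. -/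
theorem oo_PS (F : Type u) [Field F] [Finite F] : SR32.oo (PS F) ≤
    (Nat.card F - 1).divisors.card + (Nat.card F + 1).divisors.card + 4 :=
  S18.oo_PS F

end PL3
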