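import Pool.Agent.PL3.Out
import Pool.Agent.PL3.Ord
import Pool.Agent.PL3.Cls
import Pool.Agent.PL3.NumP

/-!
# PL3/MainS92: the groups `PSL (2, F)` satisfy the condition
-/

set_option autoImplicit false

namespace PL3.S92

open Matrix

universe u

theorem psl_main (L : ℕ) : ∃ q0 : ℕ, ∀ (F : Type u) [Field F] [Finite F], q0 ≤ Nat.card F →
    SR32.oo (MulAut (Matrix.ProjectiveSpecialLinearGroup (Fin 2) F)) ^ L ≤
      SR32.om (Matrix.ProjectiveSpecialLinearGroup (Fin 2) F) := by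
  obtain ⟨q1, hq1⟩ := num_psl L
  refine ⟨max 4 q1, fun F _ _ hF => ?_⟩
  have h4 : 4 ≤ Nat.card F := le_trans (le_max_left _ _) hF
  have hq : q1 ≤ Nat.card F := le_trans (le_max_right _ _) hF
  have hfinM : Finite (Matrix (Fin 2) (Fin 2) F) := inferInstanceAs (Finite (Fin 2 → Fin 2 → F))
  have hfinS : Finite (SpecialLinearGroup (Fin 2) F) := Subtype.finite
  have hfinP : Finite (PS F) := Quotient.finite _
  have e1 := out_index F h4
  have e2 := oo_PS F
  have e3 := class_ge F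
  have e4 := class_le (PS F)
  have e5 := oo_aut_le (PS F)
  have e6 := hq1 (Nat.card F) hq
  have hlog : 1 ≤ Nat.log 2 (Nat.card F) := Nat.log_pos (by norm_num) (by omega)
  set q := Nat.card F with hqd
  set idx := (MulAut.conj : PS F →* MulAut (PS F)).range.index with hidx
  set D := (q - 1).divisors.card + (q + 1).divisors.card + 4 with hD
  have f1 : SR32.oo (MulAut (PS F)) ≤ 2 * Nat.log 2 q * D :=
    le_trans e5 (Nat.mul_le_mul e1 e2)
  have f2 : SR32.oo (MulAut (PS F)) ^ L ≤ (2 * Nat.log 2 q * D) ^ L := Nat.pow_le_pow_left f1 L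
  have f3 : q ≤ 2 * (SR32.om (PS F) * (2 * Nat.log 2 q)) :=
    le_trans e3 (Nat.mul_le_mul_left 2 (le_trans e4 (Nat.mul_le_mul_left _ e1)))
  have f4 : 4 * Nat.log 2 q * SR32.oo (MulAut (PS F)) ^ L ≤ 4 * Nat.log 2 q * SR32.om (PS F) := by
    calc 4 * Nat.log 2 q * SR32.oo (MulAut (PS F)) ^ L
        ≤ 4 * Nat.log 2 q * (2 * Nat.log 2 q * D) ^ L := Nat.mul_le_mul_left _ f2
      _ ≤ q := e6
      _ ≤ 2 * (SR32.om (PS F) * (2 * Nat.log 2 q)) := f3
      _ = 4 * Nat.log 2 q * SR32.om (PS F) := by ring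
  exact Nat.le_of_mul_le_mul_left f4 (by omega)

end PL3.S92
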