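import Pool.Agent.PL3.Defs

/-!
# PL3/MatS63: matrix identities (helper63)
-/

set_option autoImplicit false

namespace PL3.S63

open Matrix PL3

universe u

variable {F : Type u} [Field F]

theorem uM_mul (x y : F) : uM (x + y) = uM x * uM y := by
  apply Subtype.ext
  change !![1, x + y; 0, 1] = !![1, x; 0, 1] * !![1, y; 0, 1]
  rw [Matrix.mul_fin_two]
  simp [add_comm]

theorem vM_mul (x y : F) : vM (x + y) = vM x * vM y := by
  apply Subtype.ext
  change !![1, 0; x + y, 1] = !![1, 0; x, 1] * !![1, 0; y, 1]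
  rw [Matrix.mul_fin_two]
  simp

theorem hM_mul (a b : Fˣ) : hM (a * b) = hM a * hM b := by
  apply Subtype.ext
  change !![((a * b : Fˣ) : F), 0; 0, (((a * b)⁻¹ : Fˣ) : F)] =
    !![(a : F), 0; 0, ((a⁻¹ : Fˣ) : F)] * !![(b : F), 0; 0, ((b⁻¹ : Fˣ) : F)]
  rw [Matrix.mul_fin_two]
  simp [mul_comm]

theorem hM_uM (a : Fˣ) (x : F) : hM a * uM x = uM ((a : F) ^ 2 * x) * hM a := by
  apply Subtype.ext
  change !![(a : F), 0; 0, ((a⁻¹ : Fˣ) : F)] * !![1, x; 0, 1] =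
    !![1, (a : F) ^ 2 * x; 0, 1] * !![(a : F), 0; 0, ((a⁻¹ : Fˣ) : F)]
  have ha : (a : F) ≠ 0 := a.ne_zero
  have e : (a : F) * x = (a : F) ^ 2 * x * (a : F)⁻¹ := by field_simp
  rw [Matrix.mul_fin_two, Matrix.mul_fin_two]
  simp [e]

theorem hM_vM (a : Fˣ) (x : F) : hM a * vM x = vM (((a⁻¹ : Fˣ) : F) ^ 2 * x) * hM a := by
  apply Subtype.ext
  change !![(a : F), 0; 0, ((a⁻¹ : Fˣ) : F)] * !![1, 0; x, 1] =
    !![1, 0; ((a⁻¹ : Fˣ) : F) ^ 2 * x, 1] * !![(a : F), 0; 0, ((a⁻¹ : Fˣ) : F)]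
  have ha : (a : F) ≠ 0 := a.ne_zero
  have e : ((a : F) ^ 2)⁻¹ * x * (a : F) = (a : F)⁻¹ * x := by field_simp
  rw [Matrix.mul_fin_two, Matrix.mul_fin_two]
  simp [e]

theorem wM_uM (x : F) : wM * uM x = vM (-x) * wM := by
  apply Subtype.ext
  change !![0, 1; -1, 0] * !![1, x; 0, 1] = !![1, 0; -x, 1] * !![0, 1; -1, 0]
  rw [Matrix.mul_fin_two, Matrix.mul_fin_two]
  simp

theorem mk_mul (A B : SpecialLinearGroup (Fin 2) F) :
    (QuotientGroup.mk (A * B) : PS F) = QuotientGroup.mk A * QuotientGroup.mk B := rfl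

theorem u_add (x y : F) : u (x + y) = u x * u y := by
  unfold u
  rw [uM_mul]
  rfl

theorem v_add (x y : F) : v (x + y) = v x * v y := by
  unfold v
  rw [vM_mul]
  rfl

theorem u_inj {x y : F} (e : u x = u y) : x = y := by
  unfold u at e
  rw [QuotientGroup.eq] at e
  have h1 : (uM x)⁻¹ = uM (-x) := by
    rw [inv_eq_iff_mul_eq_one, ← uM_mul]
    apply Subtype.ext
    simp [uM, Matrix.one_fin_two]
  rw [h1, ← uM_mul, Matrix.SpecialLinearGroup.mem_center_iff] at e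
  obtain ⟨r, _, hr⟩ := e
  have h2 := congrFun (congrFun hr 0) 1
  simp [uM] at h2
  linear_combination h2

theorem v_inj {x y : F} (e : v x = v y) : x = y := by
  unfold v at e
  rw [QuotientGroup.eq] at e
  have h1 : (vM x)⁻¹ = vM (-x) := by
    rw [inv_eq_iff_mul_eq_one, ← vM_mul]
    apply Subtype.ext
    simp [vM, Matrix.one_fin_two]
  rw [h1, ← vM_mul, Matrix.SpecialLinearGroup.mem_center_iff] at e
  obtain ⟨r, _, hr⟩ := e
  have h2 := congrFun (congrFun hr 1) 0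
  simp [vM] at h2
  linear_combination h2

theorem h_u (a : Fˣ) (x : F) : h a * u x * (h a)⁻¹ = u ((a : F) ^ 2 * x) := by
  rw [mul_inv_eq_iff_eq_mul]
  unfold h u
  rw [← mk_mul, ← mk_mul, hM_uM]

theorem h_v (a : Fˣ) (x : F) : h a * v x * (h a)⁻¹ = v (((a⁻¹ : Fˣ) : F) ^ 2 * x) := by
  rw [mul_inv_eq_iff_eq_mul]
  unfold h v
  rw [← mk_mul, ← mk_mul, hM_vM]

theorem h_mul (a b : Fˣ) : h (a * b) = h a * h b := by
  unfold h
  rw [hM_mul]
  rfl

theorem w_u (x : F) : w * u x * w⁻¹ = v (-x) := by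
  rw [mul_inv_eq_iff_eq_mul]
  unfold w u v
  rw [← mk_mul, ← mk_mul, wM_uM]

end PL3.S63
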