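import Pool.Agent.PL3.RepS89
import Pool.Agent.PL3.Defs
import Pool.Agent.PL3.MatS63

/-!
# PL3/Mat (STUB): matrix identities
-/

set_option autoImplicit false

namespace PL3

open Matrix

universe u

variable {F : Type u} [Field F]

theorem u_add (x y : F) : u (x + y) = u x * u y := S63.u_add x y

theorem v_add (x y : F) : v (x + y) = v x * v y := S63.v_add x y

/-- PROOF. `(uM y)⁻¹ * uM x` is central; central elements are scalar, so `x = y`. -/
theorem u_inj {x y : F} (e : u x = u y) : x = y := S63.u_inj e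

theorem v_inj {x y : F} (e : v x = v y) : x = y := S63.v_inj e

theorem h_u (a : Fˣ) (x : F) : h a * u x * (h a)⁻¹ = u ((a : F) ^ 2 * x) :=
  S63.h_u a x

theorem h_v (a : Fˣ) (x : F) : h a * v x * (h a)⁻¹ = v (((a⁻¹ : Fˣ) : F) ^ 2 * x) :=
  S63.h_v a x

theorem h_mul (a b : Fˣ) : h (a * b) = h a * h b := S63.h_mul a b

theorem w_u (x : F) : w * u x * w⁻¹ = v (-x) := S63.w_u x

/-- PROOF. By cases on the entry `(1, 0)` of a representative. -/
theorem bruhat (g : PS F) : (∃ a x, g = h a * u x) ∨ ∃ x a y, g = u x * w * h a * u y :=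
  S89.bruhat g

end PL3
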