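import Pool.Agent.PL3.Defs

/-!
# PL3/NormS13: elements that normalize both unipotent groups are diagonal (helper13)
-/

set_option autoImplicit false

namespace PL3.S13

open Matrix

universe u

variable {F : Type u} [Field F]

/-- equality in the quotient is equality up to a scalar -/
theorem mk_eq {a b : SpecialLinearGroup (Fin 2) F}
    (e : (QuotientGroup.mk a : PS F) = QuotientGroup.mk b) :
    ∃ r : F, r ^ 2 = 1 ∧ ∀ i j, (b : Matrix (Fin 2) (Fin 2) F) i j = r * (a : Matrix (Fin 2) (Fin 2) F) i j := by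
  rw [QuotientGroup.eq, Matrix.SpecialLinearGroup.mem_center_iff] at e
  obtain ⟨r, hr, h⟩ := e
  refine ⟨r, by simpa using hr, fun i j => ?_⟩
  have h1 : (b : Matrix (Fin 2) (Fin 2) F) = (a : Matrix (Fin 2) (Fin 2) F) * ((a⁻¹ * b : SpecialLinearGroup (Fin 2) F) : Matrix (Fin 2) (Fin 2) F) := by
    rw [← Matrix.SpecialLinearGroup.coe_mul, mul_inv_cancel_left]
  rw [h1, ← h]
  simp [Matrix.scalar_apply, mul_comm]

theorem norm_UV (g : PS F) (h1 : ∀ x, ∃ y, g * u x * g⁻¹ = u y)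
    (h2 : ∀ x, ∃ y, g * v x * g⁻¹ = v y) : ∃ a, g = h a := by
  obtain ⟨A, rfl⟩ := QuotientGroup.mk_surjective g
  have hd := A.det_coe
  rw [Matrix.det_fin_two] at hd
  obtain ⟨y, hy⟩ := h1 1
  obtain ⟨z, hz⟩ := h2 1
  obtain ⟨r, hr, e⟩ := mk_eq (a := A * uM 1 * A⁻¹) (b := uM y) hy
  obtain ⟨s, hs, f⟩ := mk_eq (a := A * vM 1 * A⁻¹) (b := vM z) hz
  have e1 := e 1 0
  have f1 := f 0 1
  have hr0 : r ≠ 0 := by rintro rfl; simp at hr
  have hs0 : s ≠ 0 := by rintro rfl; simp at hs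
  have hc : A 1 0 = 0 := by
    rw [Matrix.SpecialLinearGroup.coe_mul, Matrix.SpecialLinearGroup.coe_mul,
      Matrix.SpecialLinearGroup.coe_inv, Matrix.adjugate_fin_two] at e1
    simp [uM, Matrix.mul_apply, Fin.sum_univ_two, hr0] at e1
    have e2 : (A 1 0) ^ 2 = 0 := by linear_combination -e1
    exact pow_eq_zero_iff (two_ne_zero) |>.mp e2
  have hb : A 0 1 = 0 := by
    rw [Matrix.SpecialLinearGroup.coe_mul, Matrix.SpecialLinearGroup.coe_mul,
      Matrix.SpecialLinearGroup.coe_inv, Matrix.adjugate_fin_two] at f1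
    simp [vM, Matrix.mul_apply, Fin.sum_univ_two, hs0] at f1
    have f2 : (A 0 1) ^ 2 = 0 := by linear_combination -f1
    exact pow_eq_zero_iff (two_ne_zero) |>.mp f2
  have hd1 : A 0 0 * A 1 1 = 1 := by
    rw [hb, hc] at hd
    simpa using hd
  refine ⟨⟨A 0 0, A 1 1, hd1, by rw [mul_comm]; exact hd1⟩, ?_⟩
  show (QuotientGroup.mk A : PS F) = QuotientGroup.mk (hM _)
  congr 1
  ext i j
  fin_cases i <;> fin_cases j <;> simp [hM, hb, hc]

end PL3.S13
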