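import Pool.Agent.PL3.Mat

/-!
# PL3/NormS40: conjugates of the group of upper unitriangular matrices
-/

set_option autoImplicit false

namespace PL3.S40

open Matrix

universe u

variable {F : Type u} [Field F]

theorem u_conj_u (y x : F) : u y * u x * (u y)⁻¹ = u x := by
  rw [← u_add, add_comm, u_add, mul_inv_cancel_right]

theorem hu_conj (a : Fˣ) (y x : F) :
    h a * u y * u x * (h a * u y)⁻¹ = u ((a : F) ^ 2 * x) := by
  rw [← h_u a x, _root_.mul_inv_rev]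
  calc h a * u y * u x * ((u y)⁻¹ * (h a)⁻¹) = h a * (u y * u x * (u y)⁻¹) * (h a)⁻¹ := by group
    _ = h a * u x * (h a)⁻¹ := by rw [u_conj_u]

theorem big_conj (z : F) (a : Fˣ) (y x : F) :
    u z * w * h a * u y * u x * (u z * w * h a * u y)⁻¹ =
      u z * v (-((a : F) ^ 2 * x)) * (u z)⁻¹ := by
  rw [← w_u, ← hu_conj a y x]
  group

/-- every conjugate of `U` is `U` or `u z * V * (u z)⁻¹`. -/
theorem conj_U (s : PS F) : (∀ x, ∃ y, s * u x * s⁻¹ = u y) ∨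
    ∃ z, (∀ x, ∃ y, s * u x * s⁻¹ = u z * v y * (u z)⁻¹) ∧
      ∀ y, ∃ x, s * u x * s⁻¹ = u z * v y * (u z)⁻¹ := by
  rcases bruhat s with ⟨a, y, rfl⟩ | ⟨z, a, y, rfl⟩
  · exact Or.inl fun x => ⟨_, hu_conj a y x⟩
  · refine Or.inr ⟨z, fun x => ⟨_, big_conj z a y x⟩, fun t => ?_⟩
    refine ⟨((a⁻¹ : Fˣ) : F) ^ 2 * (-t), ?_⟩
    have e : -((a : F) ^ 2 * (((a⁻¹ : Fˣ) : F) ^ 2 * (-t))) = t := by
      rw [← mul_assoc, ← mul_pow, Units.mul_inv, one_pow, one_mul, neg_neg]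
    rw [big_conj, e]

end PL3.S40
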