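import Pool.Agent.PL3.Mat

/-!
# PL3: an element that normalizes all root subgroups is trivial
-/

set_option autoImplicit false

namespace PL3.S51

open Matrix

universe u

variable {F : Type u} [Field F]

theorem mk_eq {A B : SpecialLinearGroup (Fin 2) F}
    (e : (QuotientGroup.mk A : PS F) = QuotientGroup.mk B) :
    ∃ r : F, r ^ 2 = 1 ∧ ∀ i j, B.1 i j = r * A.1 i j := by
  rw [QuotientGroup.eq, Matrix.SpecialLinearGroup.mem_center_iff] at e
  obtain ⟨r, hr, hrA⟩ := e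
  refine ⟨r, by simpa using hr, ?_⟩
  have h1 : B.1 = A.1 * (Matrix.scalar (Fin 2) r) := by
    rw [hrA, ← Matrix.SpecialLinearGroup.coe_mul, mul_inv_cancel_left]
  intro i j
  rw [h1, Matrix.scalar_apply, Matrix.mul_diagonal, mul_comm]

theorem h_one {a : Fˣ} (ha : (a : F) ^ 2 = 1) : h a = 1 := by
  unfold h
  rw [QuotientGroup.eq_one_iff, Matrix.SpecialLinearGroup.mem_center_iff]
  refine ⟨a, by simpa using ha, ?_⟩
  have h1 : ((a⁻¹ : Fˣ) : F) = (a : F) := by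
    have : (a : F) * a = 1 := by rw [← sq]; exact ha
    rw [Units.val_inv_eq_inv_val]
    exact inv_eq_of_mul_eq_one_left this
  ext i j
  fin_cases i <;> fin_cases j <;> simp [hM, Matrix.scalar_apply, h1]

theorem u_zero : u (0 : F) = 1 := by
  have h1 := u_add (0 : F) 0
  rw [add_zero] at h1
  exact (mul_eq_left.mp h1.symm)

theorem norm_all (norm_UV : ∀ (g : PS F), (∀ x, ∃ y, g * u x * g⁻¹ = u y) →
      (∀ x, ∃ y, g * v x * g⁻¹ = v y) → ∃ a, g = h a)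
    (g : PS F) (h1 : ∀ x, ∃ y, g * u x * g⁻¹ = u y)
    (h2 : ∀ z x, ∃ y, g * (u z * v x * (u z)⁻¹) * g⁻¹ = u z * v y * (u z)⁻¹) : g = 1 := by
  have h3 : ∀ x, ∃ y, g * v x * g⁻¹ = v y := by
    intro x
    obtain ⟨y, hy⟩ := h2 0 x
    refine ⟨y, ?_⟩
    rw [u_zero, inv_one, one_mul, one_mul, mul_one, mul_one] at hy
    exact hy
  obtain ⟨a, rfl⟩ := norm_UV g h1 h3
  apply h_one
  -- conjugate `u 1 * v (a ^ 2) * (u 1)⁻¹`
  obtain ⟨y, hy⟩ := h2 1 ((a : F) ^ 2)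
  have e1 : h a * (u 1 * v ((a : F) ^ 2) * (u 1)⁻¹) * (h a)⁻¹ =
      (h a * u 1 * (h a)⁻¹) * (h a * v ((a : F) ^ 2) * (h a)⁻¹) * (h a * u 1 * (h a)⁻¹)⁻¹ := by
    group
  rw [e1, h_u, h_v] at hy
  have e2 : ((a⁻¹ : Fˣ) : F) ^ 2 * (a : F) ^ 2 = 1 := by
    rw [← mul_pow, Units.inv_mul, one_pow]
  rw [e2, mul_one] at hy
  -- `u t * v 1 = v y * u t` with `t = a ^ 2 - 1`
  have e3 : u ((a : F) ^ 2) = u 1 * u ((a : F) ^ 2 - 1) := by
    rw [← u_add]
    congr 1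
    ring
  rw [e3] at hy
  have e4 : u ((a : F) ^ 2 - 1) * v 1 = v y * u ((a : F) ^ 2 - 1) := by
    have e5 : u 1 * (u ((a : F) ^ 2 - 1) * v 1 * (u ((a : F) ^ 2 - 1))⁻¹) * (u 1)⁻¹ =
        u 1 * v y * (u 1)⁻¹ := by
      rw [← hy]
      group
    have e6 := mul_left_cancel (mul_right_cancel e5)
    rw [← e6, inv_mul_cancel_right]
  set t : F := (a : F) ^ 2 - 1 with ht
  have e7 : (QuotientGroup.mk (uM t * vM 1) : PS F) = QuotientGroup.mk (vM y * uM t) := e4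
  obtain ⟨r, hr, hrA⟩ := mk_eq e7
  have f00 := hrA 0 0
  have f01 := hrA 0 1
  have f11 := hrA 1 1
  have f10 := hrA 1 0
  simp only [uM, vM, Matrix.SpecialLinearGroup.coe_mul, Matrix.mul_apply, Fin.sum_univ_two,
    Matrix.of_apply, Matrix.cons_val_zero, Matrix.cons_val_one, Matrix.cons_val', Matrix.cons_val_fin_one, one_mul, mul_one, mul_zero, add_zero, zero_add] at f00 f01 f11 f10
  have h6 : t ^ 2 = 0 := by
    have g1 : y * t + 1 = r := f11
    have g2 : y = r := f10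
    have g3 : t = r * t := f01
    rw [g2] at g1
    rw [← g3] at g1
    rw [← g1] at g3
    linear_combination -g3
  have h7 : t = 0 := by
    exact pow_eq_zero_iff (two_ne_zero) |>.mp h6
  rw [ht] at h7
  exact sub_eq_zero.mp h7

end PL3.S51
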