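import Pool.Agent.PL3.Mat
import Pool.Agent.PL3.NormS13
import Pool.Agent.PL3.NormS51
import Pool.Agent.PL3.NormS40

/-!
# PL3/Norm (STUB): normalizers
-/

set_option autoImplicit false

namespace PL3

open Matrix

universe u

variable {F : Type u} [Field F]

/-- an element that normalizes `U` and `V` is diagonal. PROOF. Take a representative; `g * uM 1 * g⁻¹` has entry
`(1, 0)` equal to `-c ^ 2` with `c = g 1 0`, up to sign; so `c = 0`; in the same way `g 0 1 = 0`. -/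
theorem norm_UV (g : PS F) (h1 : ∀ x, ∃ y, g * u x * g⁻¹ = u y)
    (h2 : ∀ x, ∃ y, g * v x * g⁻¹ = v y) : ∃ a, g = h a := S13.norm_UV g h1 h2

/-- an element that normalizes `U` and all `u z * V * (u z)⁻¹` is trivial. PROOF. `z = 0` and `norm_UV`: `g = h a`. `z = 1`, `x = a ^ 2`: `h a * u 1 = u (a ^ 2) * h a`, so
`u t * v 1 * (u t)⁻¹ = v y` with `t = a ^ 2 - 1`; entry `(0, 1)` is `-t ^ 2`, so `a ^ 2 = 1` and `h a = 1`. -/
theorem norm_all (g : PS F) (h1 : ∀ x, ∃ y, g * u x * g⁻¹ = u y)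
    (h2 : ∀ z x, ∃ y, g * (u z * v x * (u z)⁻¹) * g⁻¹ = u z * v y * (u z)⁻¹) : g = 1 :=
  S51.norm_all (fun g => norm_UV g) g h1 h2

/-- every conjugate of `U` is `U` or `u z * V * (u z)⁻¹`. PROOF. `bruhat`. -/
theorem conj_U (s : PS F) : (∀ x, ∃ y, s * u x * s⁻¹ = u y) ∨
    ∃ z, (∀ x, ∃ y, s * u x * s⁻¹ = u z * v y * (u z)⁻¹) ∧
      ∀ y, ∃ x, s * u x * s⁻¹ = u z * v y * (u z)⁻¹ :=
  S40.conj_U s

end PL3
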