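import Pool.Agent.Pal.Divisor

/-!
# PL3/NumPS3: numbers
-/

set_option autoImplicit false

namespace PL3.S3

theorem log_le {η : ℝ} (hη : 0 < η) (q : ℕ) (hq : 1 ≤ q) :
    (Nat.log 2 q : ℝ) ≤ 2 / η * (q : ℝ) ^ η := by
  have hq0 : (0 : ℝ) ≤ q := Nat.cast_nonneg _
  have hqp : (0 : ℝ) < q := by exact_mod_cast hq
  have h1 : (2 : ℝ) ^ Nat.log 2 q ≤ q := by exact_mod_cast Nat.pow_log_le_self 2 (by omega)
  have h2 := Real.log_le_log (by positivity) h1
  rw [Real.log_pow] at h2
  have h3 := Real.log_two_gt_d9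
  have h4 := Real.log_le_rpow_div hq0 hη
  have h5 : (Nat.log 2 q : ℝ) ≤ 2 * Real.log q := by
    have h6 : (0 : ℝ) ≤ Nat.log 2 q := Nat.cast_nonneg _
    nlinarith
  calc (Nat.log 2 q : ℝ) ≤ 2 * Real.log q := h5
    _ ≤ 2 * ((q : ℝ) ^ η / η) := by linarith
    _ = 2 / η * (q : ℝ) ^ η := by ring

theorem num_psl (L : ℕ) : ∃ q0 : ℕ, ∀ q : ℕ, q0 ≤ q →
    4 * Nat.log 2 q * ((2 * Nat.log 2 q) * ((q - 1).divisors.card + (q + 1).divisors.card + 4)) ^ L
      ≤ q := by
  set η : ℝ := 1 / (4 * ((L : ℝ) + 1)) with hη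
  have hη0 : 0 < η := by positivity
  have hη1 : η ≤ 1 := by
    rw [hη, div_le_one (by positivity)]
    have : (0 : ℝ) ≤ L := Nat.cast_nonneg _
    linarith
  obtain ⟨C, hC1, hC⟩ := Pool.Agent.Pal.card_divisors_le_rpow hη0
  set K : ℝ := (8 / η) * (28 * C / η) ^ L with hK
  have hK0 : 0 ≤ K := by positivity
  obtain ⟨q1, hq1⟩ := exists_nat_ge (K ^ 2)
  refine ⟨q1 + 2, fun q hq => ?_⟩
  have hq2 : 2 ≤ q := by omega
  have hqR : (2 : ℝ) ≤ q := by exact_mod_cast hq2
  have hqp : (0 : ℝ) < q := by linarith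
  set y : ℝ := (q : ℝ) ^ η with hy
  have hy1 : 1 ≤ y := Real.one_le_rpow (by linarith) hη0.le
  have hlog := log_le hη0 q (by omega)
  rw [← hy] at hlog
  have hlog0 : (0 : ℝ) ≤ Nat.log 2 q := Nat.cast_nonneg _
  have hd1 : ((q - 1).divisors.card : ℝ) ≤ C * y := by
    refine (hC (q - 1) (by omega)).trans ?_
    apply mul_le_mul_of_nonneg_left _ (by linarith)
    apply Real.rpow_le_rpow (Nat.cast_nonneg _) _ hη0.le
    exact_mod_cast Nat.sub_le q 1
  have hd2 : ((q + 1).divisors.card : ℝ) ≤ 2 * C * y := by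
    refine (hC (q + 1) (by omega)).trans ?_
    have h1 : ((q + 1 : ℕ) : ℝ) ^ η ≤ 2 * y := by
      calc ((q + 1 : ℕ) : ℝ) ^ η ≤ (2 * (q : ℝ)) ^ η := by
            apply Real.rpow_le_rpow (Nat.cast_nonneg _) _ hη0.le
            push_cast
            linarith
        _ = 2 ^ η * y := by rw [Real.mul_rpow (by norm_num) hqp.le]
        _ ≤ 2 * y := by
            apply mul_le_mul_of_nonneg_right _ (by linarith)
            calc (2 : ℝ) ^ η ≤ 2 ^ (1 : ℝ) := Real.rpow_le_rpow_of_exponent_le (by norm_num) hη1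
              _ = 2 := Real.rpow_one 2
    calc C * ((q + 1 : ℕ) : ℝ) ^ η ≤ C * (2 * y) := mul_le_mul_of_nonneg_left h1 (by linarith)
      _ = 2 * C * y := by ring
  have hd3 : ((q - 1).divisors.card : ℝ) + (q + 1).divisors.card + 4 ≤ 7 * C * y := by
    have h1 : (4 : ℝ) ≤ 4 * C * y := by nlinarith
    linarith
  have hmain : 4 * (Nat.log 2 q : ℝ) * ((2 * Nat.log 2 q) *
      (((q - 1).divisors.card : ℝ) + (q + 1).divisors.card + 4)) ^ L ≤ q := by
    have h1 : (2 * (Nat.log 2 q : ℝ)) * (((q - 1).divisors.card : ℝ) + (q + 1).divisors.card + 4)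
        ≤ (28 * C / η) * y ^ 2 := by
      calc (2 * (Nat.log 2 q : ℝ)) * (((q - 1).divisors.card : ℝ) + (q + 1).divisors.card + 4)
          ≤ (2 * (2 / η * y)) * (7 * C * y) := by
            apply mul_le_mul _ hd3 (by positivity) (by positivity)
            linarith
        _ = (28 * C / η) * y ^ 2 := by ring
    have h2 : y ^ (2 * L + 1) ≤ Real.sqrt q := by
      rw [hy, ← Real.rpow_natCast, ← Real.rpow_mul hqp.le, Real.sqrt_eq_rpow]
      apply Real.rpow_le_rpow_of_exponent_le (by linarith)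
      rw [hη]
      push_cast
      rw [one_div, inv_mul_le_iff₀ (by positivity)]
      have : (0 : ℝ) ≤ L := Nat.cast_nonneg _
      linarith
    have h3 : K ≤ Real.sqrt q := by
      apply Real.le_sqrt_of_sq_le
      refine hq1.trans ?_
      exact_mod_cast (by omega : q1 ≤ q)
    calc 4 * (Nat.log 2 q : ℝ) * ((2 * Nat.log 2 q) *
        (((q - 1).divisors.card : ℝ) + (q + 1).divisors.card + 4)) ^ L
        ≤ (4 * (2 / η * y)) * ((28 * C / η) * y ^ 2) ^ L := by
          apply mul_le_mul _ _ (by positivity) (by positivity)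
          · linarith
          · exact pow_le_pow_left₀ (by positivity) h1 L
      _ = K * y ^ (2 * L + 1) := by
          rw [hK, mul_pow, ← pow_mul]
          ring
      _ ≤ Real.sqrt q * Real.sqrt q := by
          apply mul_le_mul h3 h2 (by positivity) (Real.sqrt_nonneg _)
      _ = q := Real.mul_self_sqrt hqp.le
  exact_mod_cast hmain

end PL3.S3
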