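import Pool.Agent.SR32.WDiv
import Mathlib.LinearAlgebra.Matrix.ProjectiveSpecialLinearGroup

/-!
# PL3/NumS32: many classes and few divisors
-/

set_option autoImplicit false

namespace PL3.S32

open SR32

universe u

theorem log_le_root {q : ℕ} (hq : 1 ≤ q) :
    (Nat.log 2 q : ℝ) ≤ 8 * (q : ℝ) ^ ((1 : ℝ) / 4) := by
  have hq1 : (1 : ℝ) ≤ (q : ℝ) := by exact_mod_cast hq
  have h1 : (Nat.log 2 q : ℝ) * Real.log 2 ≤ Real.log q := by
    have h2 : 2 ^ Nat.log 2 q ≤ q := Nat.pow_log_le_self 2 (by omega)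
    have h3 : ((2 : ℝ) ^ Nat.log 2 q) ≤ (q : ℝ) := by exact_mod_cast h2
    have h4 := Real.log_le_log (by positivity) h3
    rwa [Real.log_pow] at h4
  have h2 : Real.log q ≤ (q : ℝ) ^ ((1 : ℝ) / 4) / (1 / 4) :=
    Real.log_le_rpow_div (by linarith) (by norm_num)
  have h3 : (1 : ℝ) / 2 ≤ Real.log 2 := by
    have := Real.log_two_gt_d9
    linarith
  have h4 : (0 : ℝ) ≤ (Nat.log 2 q : ℝ) := Nat.cast_nonneg _
  have h5 : (Nat.log 2 q : ℝ) * (1 / 2) ≤ (Nat.log 2 q : ℝ) * Real.log 2 :=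
    mul_le_mul_of_nonneg_left h3 h4
  have h6 : (q : ℝ) ^ ((1 : ℝ) / 4) / (1 / 4) = 4 * (q : ℝ) ^ ((1 : ℝ) / 4) := by ring
  rw [h6] at h2
  linarith

/-- `P` has order at most `q ^ m` and `w` is at least `q / (4 log q)` or so -/
theorem num_main (m L : ℕ) : ∃ q0 : ℕ, ∀ (P : Type u) [Group P] [Finite P] (q w : ℕ),
    q0 ≤ q → Nat.card P ≤ q ^ m → (q - 1) / 2 - 2 ≤ 2 * Nat.log 2 q * w → oo P ^ L ≤ w := by
  obtain ⟨C, hC, hD⟩ := DD_bound m (1 / (4 * ((L : ℝ) + 1))) (by positivity)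
  set K : ℝ := 16 * C ^ L with hK
  have hK0 : 0 < K := by positivity
  refine ⟨⌈(2 * K + 4) ^ 2⌉₊ + 1, ?_⟩
  intro P _ _ q w hq hP hw
  by_contra hcon
  push Not at hcon
  have hq1 : 1 ≤ q := by omega
  have hq1r : (1 : ℝ) ≤ (q : ℝ) := by exact_mod_cast hq1
  set y : ℝ := (q : ℝ) ^ ((1 : ℝ) / 4) with hy
  have hy0 : 0 < y := Real.rpow_pos_of_pos (by linarith) _
  have hy4 : y ^ 4 = (q : ℝ) := by
    rw [hy, ← Real.rpow_natCast, ← Real.rpow_mul (by linarith)]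
    norm_num
  have h1 : (oo P : ℝ) ^ L ≤ C ^ L * y := by
    have h2 : (oo P : ℝ) ≤ C * (q : ℝ) ^ (1 / (4 * ((L : ℝ) + 1))) := by
      have h3 : oo P ≤ DD m q := oo_le_DD m q hP
      have h4 : (oo P : ℝ) ≤ (DD m q : ℝ) := by exact_mod_cast h3
      exact h4.trans (hD q hq1)
    calc (oo P : ℝ) ^ L ≤ (C * (q : ℝ) ^ (1 / (4 * ((L : ℝ) + 1)))) ^ L :=
          pow_le_pow_left₀ (Nat.cast_nonneg _) h2 _
      _ = C ^ L * (q : ℝ) ^ (1 / (4 * ((L : ℝ) + 1)) * L) := by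
          rw [mul_pow, ← Real.rpow_natCast ((q : ℝ) ^ (1 / (4 * ((L : ℝ) + 1)))) L,
            ← Real.rpow_mul (by linarith)]
      _ ≤ C ^ L * y := by
          apply mul_le_mul_of_nonneg_left _ (by positivity)
          rw [hy]
          apply Real.rpow_le_rpow_of_exponent_le hq1r
          rw [div_mul_eq_mul_div, div_le_div_iff₀ (by positivity) (by norm_num)]
          linarith
  have h2 : (w : ℝ) ≤ C ^ L * y := by
    have h3 : (w : ℝ) ≤ (oo P : ℝ) ^ L := by exact_mod_cast hcon.le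
    exact h3.trans h1
  have h3 := log_le_root hq1
  rw [← hy] at h3
  have h4 : (q : ℝ) / 2 - 4 ≤ 2 * (Nat.log 2 q : ℝ) * w := by
    have h5 : q ≤ 2 * ((q - 1) / 2 - 2) + 6 := by omega
    have h6 : (q : ℝ) ≤ 2 * (((q - 1) / 2 - 2 : ℕ) : ℝ) + 6 := by exact_mod_cast h5
    have h7 : (((q - 1) / 2 - 2 : ℕ) : ℝ) ≤ 2 * (Nat.log 2 q : ℝ) * w := by exact_mod_cast hw
    linarith
  have h5 : 2 * (Nat.log 2 q : ℝ) * w ≤ K * y ^ 2 := by
    have h6 : (Nat.log 2 q : ℝ) * w ≤ (8 * y) * (C ^ L * y) :=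
      mul_le_mul h3 h2 (Nat.cast_nonneg _) (by positivity)
    rw [hK]
    nlinarith [h6]
  have h6 : (2 * K + 4) ^ 2 ≤ (y ^ 2) ^ 2 := by
    have h7 : (2 * K + 4) ^ 2 ≤ (⌈(2 * K + 4) ^ 2⌉₊ : ℝ) := Nat.le_ceil _
    have h8 : ((⌈(2 * K + 4) ^ 2⌉₊ + 1 : ℕ) : ℝ) ≤ (q : ℝ) := by exact_mod_cast hq
    push_cast at h8
    have h9 : (y ^ 2) ^ 2 = (q : ℝ) := by rw [← hy4]; ring
    rw [h9]
    linarith
  have h7 : 2 * K + 4 ≤ y ^ 2 := by
    apply le_of_sq_le_sq _ (by positivity)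
    exact h6
  have h8 : (q : ℝ) = y ^ 2 * y ^ 2 := by rw [← hy4]; ring
  nlinarith [h4, h5, h7, h8, mul_le_mul_of_nonneg_right h7 (sq_nonneg y)]

end PL3.S32
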