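import Pool.Agent.SR32.Defs

/-!
# PL3/OrbS97: automorphism classes of the groups PSL(2, F) (helper97)
-/

set_option autoImplicit false

namespace PL3.S97

open Matrix

variable {F : Type*} [Field F]

abbrev SL (F : Type*) [Field F] : Type _ := SpecialLinearGroup (Fin 2) F
abbrev PS (F : Type*) [Field F] : Type _ := ProjectiveSpecialLinearGroup (Fin 2) F

def uu (x : F) : SL F := ⟨!![1, x; 0, 1], by simp [Matrix.det_fin_two]⟩
def vv (x : F) : SL F := ⟨!![1, 0; x, 1], by simp [Matrix.det_fin_two]⟩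
def hh (a : Fˣ) : SL F := ⟨!![(a : F), 0; 0, (a : F)⁻¹], by simp [Matrix.det_fin_two]⟩

def pr (A : SL F) : PS F := QuotientGroup.mk A

theorem pr_mul (A B : SL F) : pr (A * B) = pr A * pr B := rfl
theorem pr_inv (A : SL F) : pr A⁻¹ = (pr A)⁻¹ := rfl
theorem pr_one : pr (1 : SL F) = 1 := rfl
theorem pr_pow (A : SL F) (n : ℕ) : pr (A ^ n) = pr A ^ n := rfl
theorem pr_surj (x : PS F) : ∃ A : SL F, pr A = x := QuotientGroup.mk_surjective x

theorem pr_eq {A B : SL F} : pr A = pr B ↔ A.1 = B.1 ∨ A.1 = -B.1 := by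
  unfold pr
  rw [QuotientGroup.eq, Matrix.SpecialLinearGroup.mem_center_iff]
  constructor
  · rintro ⟨r, hr, hrA⟩
    have h1 : (A * (A⁻¹ * B)).1 = A.1 * (scalar (Fin 2)) r := by
      rw [hrA]
      rfl
    rw [mul_inv_cancel_left] at h1
    rw [Fintype.card_fin, sq, mul_self_eq_one_iff] at hr
    rcases hr with h | h
    · left
      rw [h1, h]
      simp
    · right
      rw [h1, h, map_neg, map_one, mul_neg, mul_one, neg_neg]
  · rintro (h | h)
    · refine ⟨1, by simp, ?_⟩
      have : A = B := Subtype.ext h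
      rw [this]
      simp
    · refine ⟨-1, by simp, ?_⟩
      have h1 : B.1 = -A.1 := by rw [h, neg_neg]
      have h2 : (A⁻¹ * B).1 = A⁻¹.1 * B.1 := rfl
      have h3 : (A⁻¹ * A).1 = A⁻¹.1 * A.1 := rfl
      rw [h2, h1, mul_neg, ← h3, inv_mul_cancel, map_neg, map_one]
      rfl

theorem uu_mul (x y : F) : uu x * uu y = uu (x + y) := by
  apply Subtype.ext
  show !![1, x; 0, 1] * !![1, y; 0, 1] = !![1, x + y; 0, 1]
  rw [Matrix.mul_fin_two]
  congr 1
  simp [add_comm]

theorem vv_mul (x y : F) : vv x * vv y = vv (x + y) := by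
  apply Subtype.ext
  show !![1, 0; x, 1] * !![1, 0; y, 1] = !![1, 0; x + y, 1]
  rw [Matrix.mul_fin_two]
  congr 1
  simp [add_comm]

theorem uu_zero : uu (0 : F) = 1 := by
  apply Subtype.ext
  show !![1, (0 : F); 0, 1] = 1
  rw [Matrix.one_fin_two]

theorem vv_zero : vv (0 : F) = 1 := by
  apply Subtype.ext
  show !![1, (0 : F); 0, 1] = 1
  rw [Matrix.one_fin_two]

theorem hh_uu (a : Fˣ) (x : F) : hh a * uu x = uu ((a : F) ^ 2 * x) * hh a := by
  apply Subtype.ext
  show !![(a : F), 0; 0, (a : F)⁻¹] * !![1, x; 0, 1] =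
    !![1, (a : F) ^ 2 * x; 0, 1] * !![(a : F), 0; 0, (a : F)⁻¹]
  rw [Matrix.mul_fin_two, Matrix.mul_fin_two]
  have ha : (a : F) ≠ 0 := a.ne_zero
  congr 1
  simp
  field_simp

theorem hh_vv (a : Fˣ) (x : F) : hh a * vv x = vv (((a : F) ^ 2)⁻¹ * x) * hh a := by
  apply Subtype.ext
  show !![(a : F), 0; 0, (a : F)⁻¹] * !![1, 0; x, 1] =
    !![1, 0; ((a : F) ^ 2)⁻¹ * x, 1] * !![(a : F), 0; 0, (a : F)⁻¹]
  rw [Matrix.mul_fin_two, Matrix.mul_fin_two]
  have ha : (a : F) ≠ 0 := a.ne_zero
  congr 1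
  simp
  field_simp

theorem uu_pow (x : F) (n : ℕ) : uu x ^ n = uu (n * x) := by
  induction n with
  | zero => rw [pow_zero, Nat.cast_zero, zero_mul, uu_zero]
  | succ n ih =>
    rw [pow_succ, ih, uu_mul]
    congr 1
    push_cast
    ring

theorem vv_pow (x : F) (n : ℕ) : vv x ^ n = vv (n * x) := by
  induction n with
  | zero => rw [pow_zero, Nat.cast_zero, zero_mul, vv_zero]
  | succ n ih =>
    rw [pow_succ, ih, vv_mul]
    congr 1
    push_cast
    ring

theorem pr_uu_inj {x y : F} (h : pr (uu x) = pr (uu y)) : x = y := by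
  rw [pr_eq] at h
  rcases h with h | h
  · have := congrFun (congrFun h 0) 1
    simpa [uu] using this
  · have h1 : (1 : F) = -1 := by
      have := congrFun (congrFun h 0) 0
      simpa [uu] using this
    have h2 : x = -y := by
      have := congrFun (congrFun h 0) 1
      simpa [uu] using this
    rw [h2, neg_eq_neg_one_mul, ← h1, one_mul]

theorem pr_vv_inj {x y : F} (h : pr (vv x) = pr (vv y)) : x = y := by
  rw [pr_eq] at h
  rcases h with h | h
  · have := congrFun (congrFun h 1) 0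
    simpa [vv] using this
  · have h1 : (1 : F) = -1 := by
      have := congrFun (congrFun h 0) 0
      simpa [vv] using this
    have h2 : x = -y := by
      have := congrFun (congrFun h 1) 0
      simpa [vv] using this
    rw [h2, neg_eq_neg_one_mul, ← h1, one_mul]

/-- nontrivial upper and lower unitriangular classes do not commute -/
theorem not_comm {x y : F} (hx : x ≠ 0) (hy : y ≠ 0) :
    pr (uu x) * pr (vv y) ≠ pr (vv y) * pr (uu x) := by
  rw [← pr_mul, ← pr_mul, Ne, pr_eq]
  have e1 : (uu x * vv y).1 = !![1 + x * y, x; y, 1] := by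
    show !![1, x; 0, 1] * !![1, 0; y, 1] = _
    rw [Matrix.mul_fin_two]
    congr 1
    simp
  have e2 : (vv y * uu x).1 = !![1, x; y, y * x + 1] := by
    show !![1, 0; y, 1] * !![1, x; 0, 1] = _
    rw [Matrix.mul_fin_two]
    congr 1
    simp
  rw [e1, e2]
  rintro (h | h)
  · have h1 : 1 + x * y = 1 := by
      have := congrFun (congrFun h 0) 0
      simpa using this
    have h2 : x * y = 0 := by
      have := add_eq_left.1 h1
      exact this
    exact (mul_ne_zero hx hy) h2
  · have h1 : 1 + x * y = -1 := by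
      have := congrFun (congrFun h 0) 0
      simpa using this
    have h2 : x = -x := by
      have := congrFun (congrFun h 0) 1
      simpa using this
    have h3 : (2 : F) * x = 0 := by
      rw [two_mul]
      nth_rewrite 2 [h2]
      exact add_neg_cancel x
    have h4 : (2 : F) = 0 := (mul_eq_zero.1 h3).resolve_right hx
    have h5 : x * y = 0 := by
      have : x * y = -(2 : F) := by linear_combination h1
      rw [this, h4, neg_zero]
    exact (mul_ne_zero hx hy) h5

/-- the property that picks the two unitriangular groups -/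
def Pp (p : ℕ) {S : Type*} [Group S] (g x : S) : Prop := x ^ p = 1 ∧ x * (g * x * g⁻¹) = (g * x * g⁻¹) * x

theorem Pp_map (p : ℕ) {S : Type*} [Group S] (α : S ≃* S) {g x : S} (h : Pp p g x) :
    Pp p (α g) (α x) := by
  obtain ⟨h1, h2⟩ := h
  refine ⟨?_, ?_⟩
  · rw [← map_pow, h1, map_one]
  · rw [← map_inv, ← map_mul, ← map_mul, ← map_mul, h2, map_mul]

theorem conj_uu (a : Fˣ) (x : F) :
    pr (hh a) * pr (uu x) * (pr (hh a))⁻¹ = pr (uu ((a : F) ^ 2 * x)) := by
  rw [← pr_mul, hh_uu, pr_mul, mul_inv_cancel_right]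

theorem conj_vv (a : Fˣ) (x : F) :
    pr (hh a) * pr (vv x) * (pr (hh a))⁻¹ = pr (vv (((a : F) ^ 2)⁻¹ * x)) := by
  rw [← pr_mul, hh_vv, pr_mul, mul_inv_cancel_right]

theorem Pp_uu (p : ℕ) [CharP F p] (a : Fˣ) (x : F) : Pp p (pr (hh a)) (pr (uu x)) := by
  refine ⟨?_, ?_⟩
  · rw [← pr_pow, uu_pow, CharP.cast_eq_zero, zero_mul, uu_zero, pr_one]
  · rw [conj_uu, ← pr_mul, ← pr_mul, uu_mul, uu_mul, add_comm]

theorem Pp_vv (p : ℕ) [CharP F p] (a : Fˣ) (x : F) : Pp p (pr (hh a)) (pr (vv x)) := by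
  refine ⟨?_, ?_⟩
  · rw [← pr_pow, vv_pow, CharP.cast_eq_zero, zero_mul, vv_zero, pr_one]
  · rw [conj_vv, ← pr_mul, ← pr_mul, vv_mul, vv_mul, add_comm]

/-- a lift of order `p` -/
theorem lift_pow (p : ℕ) [Fact p.Prime] [CharP F p] {x : PS F} (h : x ^ p = 1) :
    ∃ A : SL F, pr A = x ∧ A.1 ^ p = 1 := by
  obtain ⟨A, rfl⟩ := pr_surj x
  rw [← pr_pow, ← pr_one, pr_eq] at h
  rcases h with h | h
  · exact ⟨A, rfl, h⟩
  · have hdet : (-A.1).det = 1 := by
      rw [Matrix.det_neg, Fintype.card_fin, A.2]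
      norm_num
    refine ⟨⟨-A.1, hdet⟩, ?_, ?_⟩
    · rw [pr_eq]
      exact Or.inr rfl
    · show (-A.1) ^ p = 1
      have h1 : A.1 ^ p = -1 := h
      rw [neg_pow, h1]
      rcases Nat.Prime.eq_two_or_odd' (Fact.out : p.Prime) with h2 | h2
      · have h3 : (2 : F) = 0 := by
          have := CharP.cast_eq_zero F p
          rw [h2] at this
          exact_mod_cast this
        have h4 : (-1 : Matrix (Fin 2) (Fin 2) F) = 1 := by
          have h5 : (1 : F) = -1 := by linear_combination h3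
          ext i j
          rw [Matrix.neg_apply]
          rcases eq_or_ne i j with hij | hij
          · rw [hij, Matrix.one_apply_eq]
            exact h5.symm
          · rw [Matrix.one_apply_ne hij, neg_zero]
        rw [h4, one_pow, one_mul]
      · rw [h2.neg_one_pow, neg_mul_neg, one_mul]

theorem Pp_imp (p : ℕ) [Fact p.Prime] [CharP F p] (a : Fˣ) (ha : (a : F) ^ 4 ≠ 1) {x : PS F}
    (h : Pp p (pr (hh a)) x) : (∃ t, x = pr (uu t)) ∨ ∃ t, x = pr (vv t) := by
  obtain ⟨h1, h2⟩ := h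
  obtain ⟨A, rfl, hA⟩ := lift_pow p h1
  have ha0 : (a : F) ≠ 0 := a.ne_zero
  have hdet := A.2
  rw [Matrix.det_fin_two] at hdet
  have htr : A.1 0 0 + A.1 1 1 = 2 := by
    have h3 : IsNilpotent (A.1 - 1) := by
      refine ⟨p, ?_⟩
      rw [sub_pow_char_of_commute p (Commute.one_right _), hA, one_pow, sub_self]
    have h4 := (Matrix.isNilpotent_trace_of_isNilpotent h3).eq_zero
    rw [Matrix.trace_fin_two, Matrix.sub_apply, Matrix.sub_apply, Matrix.one_apply_eq,
      Matrix.one_apply_eq] at h4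
    linear_combination h4
  rw [← pr_inv, ← pr_mul, ← pr_mul, ← pr_mul, ← pr_mul, pr_eq] at h2
  have hinv : ((hh a)⁻¹).1 = !![(a : F)⁻¹, 0; 0, (a : F)] := by
    rw [Matrix.SpecialLinearGroup.coe_inv]
    show (!![(a : F), 0; 0, (a : F)⁻¹]).adjugate = _
    rw [Matrix.adjugate_fin_two_of]
    simp
  have hB : (hh a * A * (hh a)⁻¹).1 =
      !![A.1 0 0, (a : F) ^ 2 * A.1 0 1; ((a : F) ^ 2)⁻¹ * A.1 1 0, A.1 1 1] := by
    have e1 : (hh a * A * (hh a)⁻¹).1 = !![(a : F), 0; 0, (a : F)⁻¹] * A.1 * ((hh a)⁻¹).1 := rfl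
    rw [e1, hinv]
    conv_lhs => rw [Matrix.eta_fin_two A.1]
    rw [Matrix.mul_fin_two, Matrix.mul_fin_two]
    congr 1
    simp
    refine ⟨⟨?_, ?_⟩, ?_, ?_⟩ <;> field_simp
  have e1 : (A * (hh a * A * (hh a)⁻¹)).1 = A.1 * (hh a * A * (hh a)⁻¹).1 := rfl
  have e2 : ((hh a * A * (hh a)⁻¹) * A).1 = (hh a * A * (hh a)⁻¹).1 * A.1 := rfl
  rw [e1, e2, hB] at h2
  obtain ⟨α, hα⟩ : ∃ α, α = A.1 0 0 := ⟨_, rfl⟩
  obtain ⟨β, hβ⟩ : ∃ β, β = A.1 0 1 := ⟨_, rfl⟩
  obtain ⟨γ, hγ⟩ : ∃ γ, γ = A.1 1 0 := ⟨_, rfl⟩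
  obtain ⟨δ, hδ⟩ : ∃ δ, δ = A.1 1 1 := ⟨_, rfl⟩
  have hA1 : A.1 = !![α, β; γ, δ] := by
    rw [hα, hβ, hγ, hδ]
    exact Matrix.eta_fin_two A.1
  rw [← hα, ← hβ, ← hγ, ← hδ] at h2 hdet
  rw [← hα, ← hδ] at htr
  rw [hA1, Matrix.mul_fin_two, Matrix.mul_fin_two] at h2
  obtain ⟨c, hc⟩ : ∃ c, c = (a : F) ^ 2 := ⟨_, rfl⟩
  have hc0 : c ≠ 0 := by rw [hc]; exact pow_ne_zero 2 ha0
  have hc2 : c ^ 2 ≠ 1 := by rw [hc, ← pow_mul]; exact ha
  rw [← hc] at h2
  have key : β * γ = 0 := by
    rcases h2 with h2 | h2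
    · have e00 : α * α + β * (c⁻¹ * γ) = α * α + c * β * γ := by
        have := congrFun (congrFun h2 0) 0
        simpa using this
      have e : c * (β * (c⁻¹ * γ)) = c * (c * β * γ) := by
        rw [add_left_cancel e00]
      have e' : β * γ = c ^ 2 * (β * γ) := by
        have h5 : c * (β * (c⁻¹ * γ)) = β * γ := by
          field_simp
        exact h5.symm.trans (e.trans (by ring))
      have h6 : (c ^ 2 - 1) * (β * γ) = 0 := by linear_combination -e'
      exact (mul_eq_zero.1 h6).resolve_left (sub_ne_zero.2 hc2)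
    · have e01 : α * (c * β) + β * δ = -(α * β + c * β * δ) := by
        have := congrFun (congrFun h2 0) 1
        simpa using this
      have e00 : α * α + β * (c⁻¹ * γ) = -(α * α + c * β * γ) := by
        have := congrFun (congrFun h2 0) 0
        simpa using this
      have h5 : (c + 1) * (2 * β) = 0 := by
        have : (c + 1) * ((α + δ) * β) = 0 := by linear_combination e01
        rw [htr] at this
        exact this
      have h6 : c + 1 ≠ 0 := by
        intro h
        apply hc2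
        have : c = -1 := eq_neg_of_add_eq_zero_left h
        rw [this]
        norm_num
      have h7 : (2 : F) * β = 0 := (mul_eq_zero.1 h5).resolve_left h6
      rcases mul_eq_zero.1 h7 with h8 | h8
      · -- characteristic two
        have e : c * (β * (c⁻¹ * γ)) = c * (c * β * γ) := by
          have : β * (c⁻¹ * γ) = c * β * γ := by
            linear_combination e00 - (α * α + c * β * γ) * h8
          rw [this]
        have e' : β * γ = c ^ 2 * (β * γ) := by
          have h5 : c * (β * (c⁻¹ * γ)) = β * γ := by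
            field_simp
          exact h5.symm.trans (e.trans (by ring))
        have h6 : (c ^ 2 - 1) * (β * γ) = 0 := by linear_combination -e'
        exact (mul_eq_zero.1 h6).resolve_left (sub_ne_zero.2 hc2)
      · rw [h8, zero_mul]
  have hn : (α - 1) ^ 2 = 0 := by
    have : δ = 2 - α := by linear_combination htr
    rw [this] at hdet
    linear_combination -hdet - key
  have hα1 : α = 1 := sub_eq_zero.1 (pow_eq_zero_iff (two_ne_zero)|>.1 hn)
  have hδ1 : δ = 1 := by
    rw [hα1] at htr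
    linear_combination htr
  rcases mul_eq_zero.1 key with h | h
  · right
    refine ⟨γ, ?_⟩
    rw [pr_eq]
    left
    rw [hA1, hα1, hδ1, h]
    rfl
  · left
    refine ⟨β, ?_⟩
    rw [pr_eq]
    left
    rw [hA1, hα1, hδ1, h]
    rfl

/-- an automorphism that maps the class of `diag(a, 1/a)` to the class of `diag(b, 1/b)` -/
theorem phi_exists (p : ℕ) [Fact p.Prime] [CharP F p] (a b : Fˣ)
    (hb : (b : F) ^ 4 ≠ 1) (σ : PS F ≃* PS F) (hσ : σ (pr (hh a)) = pr (hh b)) :
    ∃ (φ : F →+ F) (c : F), φ 1 ≠ 0 ∧ (c = (b : F) ^ 2 ∨ c = ((b : F) ^ 2)⁻¹) ∧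
      ∀ t, φ ((a : F) ^ 2 * t) = c * φ t := by
  have hmap : ∀ t : F, (∃ s, σ (pr (uu t)) = pr (uu s)) ∨ ∃ s, σ (pr (uu t)) = pr (vv s) := by
    intro t
    have h1 := Pp_map p σ (Pp_uu p a t)
    rw [hσ] at h1
    exact Pp_imp p b hb h1
  have hinj : ∀ t : F, σ (pr (uu t)) = 1 → t = 0 := by
    intro t ht
    have h1 : pr (uu t) = 1 := by
      apply σ.injective
      rw [ht, map_one]
    apply pr_uu_inj
    rw [h1, uu_zero, pr_one]
  have hcommσ : ∀ t t' : F, σ (pr (uu t)) * σ (pr (uu t')) = σ (pr (uu t')) * σ (pr (uu t)) := by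
    intro t t'
    rw [← map_mul, ← map_mul, ← pr_mul, ← pr_mul, uu_mul, uu_mul, add_comm]
  rcases hmap 1 with ⟨s1, hs1⟩ | ⟨s1, hs1⟩
  · have hs10 : s1 ≠ 0 := by
      intro h
      rw [h, uu_zero, pr_one] at hs1
      exact one_ne_zero (hinj 1 hs1)
    have hall : ∀ t : F, ∃ s, σ (pr (uu t)) = pr (uu s) := by
      intro t
      rcases hmap t with h | ⟨s, hs⟩
      · exact h
      · rcases eq_or_ne s 0 with h0 | h0
        · refine ⟨0, ?_⟩
          rw [hs, h0, vv_zero, uu_zero]
        · exfalso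
          have h1 := hcommσ 1 t
          rw [hs1, hs] at h1
          exact not_comm hs10 h0 h1
    choose φ hφ using hall
    refine ⟨⟨⟨φ, ?_⟩, ?_⟩, (b : F) ^ 2, ?_, Or.inl rfl, ?_⟩
    · apply pr_uu_inj
      rw [← hφ, uu_zero, pr_one, map_one]
    · intro x y
      apply pr_uu_inj
      rw [← hφ, ← uu_mul, pr_mul, map_mul, hφ, hφ, ← pr_mul, uu_mul]
    · show φ 1 ≠ 0
      intro h
      have h1 := hφ 1
      rw [h, uu_zero, pr_one] at h1
      exact one_ne_zero (hinj 1 h1)
    · intro t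
      show φ ((a : F) ^ 2 * t) = (b : F) ^ 2 * φ t
      apply pr_uu_inj
      rw [← hφ, ← conj_uu, map_mul, map_mul, map_inv, hσ, hφ, conj_uu]
  · have hs10 : s1 ≠ 0 := by
      intro h
      rw [h, vv_zero, pr_one] at hs1
      exact one_ne_zero (hinj 1 hs1)
    have hall : ∀ t : F, ∃ s, σ (pr (uu t)) = pr (vv s) := by
      intro t
      rcases hmap t with ⟨s, hs⟩ | h
      · rcases eq_or_ne s 0 with h0 | h0
        · refine ⟨0, ?_⟩
          rw [hs, h0, vv_zero, uu_zero]
        · exfalso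
          have h1 := hcommσ t 1
          rw [hs1, hs] at h1
          exact not_comm h0 hs10 h1
      · exact h
    choose φ hφ using hall
    refine ⟨⟨⟨φ, ?_⟩, ?_⟩, ((b : F) ^ 2)⁻¹, ?_, Or.inr rfl, ?_⟩
    · apply pr_vv_inj
      rw [← hφ, uu_zero, vv_zero, pr_one, map_one]
    · intro x y
      apply pr_vv_inj
      rw [← hφ, ← uu_mul, pr_mul, map_mul, hφ, hφ, ← pr_mul, vv_mul]
    · show φ 1 ≠ 0
      intro h
      have h1 := hφ 1
      rw [h, vv_zero, pr_one] at h1
      exact one_ne_zero (hinj 1 h1)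
    · intro t
      show φ ((a : F) ^ 2 * t) = ((b : F) ^ 2)⁻¹ * φ t
      apply pr_vv_inj
      rw [← hφ, ← conj_uu, map_mul, map_mul, map_inv, hσ, hφ, conj_vv]

/-- an additive map that intertwines multiplications -/
theorem root_of_phi (p : ℕ) [Fact p.Prime] [CharP F p] [Algebra (ZMod p) F] (φ : F →+ F) (x c : F)
    (h1 : φ 1 ≠ 0) (h : ∀ t, φ (x * t) = c * φ t) : Polynomial.aeval c (minpoly (ZMod p) x) = 0 := by
  have hpow : ∀ (n : ℕ) (t : F), φ (x ^ n * t) = c ^ n * φ t := by
    intro n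
    induction n with
    | zero => intro t; rw [pow_zero, pow_zero, one_mul, one_mul]
    | succ n ih => intro t; rw [pow_succ, mul_assoc, ih, h, pow_succ, mul_assoc]
  have hsmul : ∀ (k : ZMod p) (t : F), φ (k • t) = k • φ t := fun k t =>
    ZMod.map_smul φ k t
  have key : ∀ (P : Polynomial (ZMod p)) (t : F),
      φ (Polynomial.aeval x P * t) = Polynomial.aeval c P * φ t := by
    intro P t
    induction P using Polynomial.induction_on' with
    | add P Q hP hQ => rw [map_add, map_add, add_mul, add_mul, map_add, hP, hQ]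
    | monomial n k =>
      rw [Polynomial.aeval_monomial, Polynomial.aeval_monomial, mul_assoc, mul_assoc,
        ← Algebra.smul_def, ← Algebra.smul_def, hsmul, hpow]
  have h2 := key (minpoly (ZMod p) x) 1
  rw [minpoly.aeval, zero_mul, map_zero] at h2
  exact (mul_eq_zero.1 h2.symm).resolve_right h1

theorem om_ge (F : Type*) [Field F] [Finite F] :
    (Nat.card F - 1) / 2 - 2 ≤ 2 * Nat.log 2 (Nat.card F) * SR32.om (PS F) := by
  classical
  obtain ⟨p, hp⟩ := CharP.exists F
  have hpp : Fact p.Prime := by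
    have := CharP.char_is_prime_or_zero F p
    rcases this with h | h
    · exact ⟨h⟩
    · exfalso
      subst h
      have : CharZero F := CharP.charP_to_charZero F
      exact not_finite F
  obtain ⟨ft⟩ : Nonempty (Fintype F) := ⟨Fintype.ofFinite F⟩
  obtain ⟨alg⟩ : Nonempty (Algebra (ZMod p) F) := ⟨ZMod.algebra F p⟩
  have hf : Module.finrank (ZMod p) F ≤ Nat.log 2 (Nat.card F) := by
    have h1 : Nat.card F = Nat.card (ZMod p) ^ Module.finrank (ZMod p) F :=
      Module.natCard_eq_pow_finrank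
    rw [Nat.card_zmod] at h1
    have h2 : 2 ^ Module.finrank (ZMod p) F ≤ Nat.card F := by
      rw [h1]
      exact Nat.pow_le_pow_left hpp.out.two_le _
    exact Nat.le_log_of_pow_le (by norm_num) h2
  have hfinS : Finite (PS F) := Quotient.finite _
  have hfinQ : Finite (MulAction.orbitRel.Quotient (MulAut (PS F)) (PS F)) := Quotient.finite _
  obtain ⟨ftQ⟩ : Nonempty (Fintype (MulAction.orbitRel.Quotient (MulAut (PS F)) (PS F))) :=
    ⟨Fintype.ofFinite _⟩
  -- the squares
  obtain ⟨D, hD⟩ : ∃ D : Finset Fˣ, D = (Finset.univ.image (fun b : Fˣ => b ^ 2)).filter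
    (fun c => c ^ 2 ≠ 1) := ⟨_, rfl⟩
  have hex : ∀ c : Fˣ, ∃ b : Fˣ, c ∈ D → b ^ 2 = c := by
    intro c
    by_cases h : c ∈ D
    · rw [hD, Finset.mem_filter, Finset.mem_image] at h
      obtain ⟨⟨b, _, hb⟩, _⟩ := h
      exact ⟨b, fun _ => hb⟩
    · exact ⟨1, fun h' => absurd h' h⟩
  choose r hr using hex
  have hsq : ∀ x : Fˣ, ((Finset.univ : Finset Fˣ).filter (fun b => b ^ 2 = x)).card ≤ 2 := by
    intro x
    have h1 : ((Finset.univ : Finset Fˣ).filter (fun b => b ^ 2 = x)).card ≤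
        (Polynomial.nthRoots 2 (x : F)).toFinset.card := by
      apply Finset.card_le_card_of_injOn (fun b : Fˣ => (b : F))
      · intro b hb
        have hb' := (Finset.mem_filter.1 (Finset.mem_coe.1 hb)).2
        rw [Finset.mem_coe, Multiset.mem_toFinset, Polynomial.mem_nthRoots (by norm_num)]
        rw [← hb']
        push_cast
        rfl
      · intro b _ b' _ h
        exact Units.ext h
    exact h1.trans ((Multiset.toFinset_card_le _).trans (Polynomial.card_nthRoots 2 _))
  have hcardD : (Nat.card F - 1) / 2 - 2 ≤ D.card := by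
    have h1 : Fintype.card Fˣ = Nat.card F - 1 := by
      rw [Nat.card_eq_fintype_card]
      exact Fintype.card_units F
    have h2 : (Finset.univ : Finset Fˣ).card ≤ 2 * (Finset.univ.image (fun b : Fˣ => b ^ 2)).card := by
      apply Finset.card_le_mul_card_image
      intro x _
      exact hsq x
    rw [Finset.card_univ, h1] at h2
    have h3 : (Finset.univ.image (fun b : Fˣ => b ^ 2)).card ≤ D.card + 2 := by
      rw [hD]
      have h4 := Finset.card_filter_add_card_filter_not
        (s := Finset.univ.image (fun b : Fˣ => b ^ 2)) (fun c : Fˣ => c ^ 2 ≠ 1)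
      have h5 : ((Finset.univ.image (fun b : Fˣ => b ^ 2)).filter (fun c : Fˣ => ¬ c ^ 2 ≠ 1)).card
          ≤ 2 := by
        refine le_trans (Finset.card_le_card ?_) (hsq 1)
        intro c hc
        rw [Finset.mem_filter] at hc ⊢
        exact ⟨Finset.mem_univ _, not_not.1 hc.2⟩
      omega
    omega
  have hfib : ∀ o ∈ D.image (fun c => (Quotient.mk'' (pr (hh (r c))) :
      MulAction.orbitRel.Quotient (MulAut (PS F)) (PS F))),
      (D.filter (fun c => (Quotient.mk'' (pr (hh (r c))) :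
      MulAction.orbitRel.Quotient (MulAut (PS F)) (PS F)) = o)).card ≤
        2 * Nat.log 2 (Nat.card F) := by
    intro o ho
    obtain ⟨c0, hc0, rfl⟩ := Finset.mem_image.1 ho
    obtain ⟨μ, hμ⟩ : ∃ μ, μ = minpoly (ZMod p) ((r c0 : F) ^ 2) := ⟨_, rfl⟩
    obtain ⟨R, hR⟩ : ∃ R : Finset F, R = (μ.aroots F).toFinset := ⟨_, rfl⟩
    have hint : IsIntegral (ZMod p) ((r c0 : F) ^ 2) := Algebra.IsIntegral.isIntegral _
    have hμ0 : μ ≠ 0 := by rw [hμ]; exact minpoly.ne_zero hint
    have hRcard : R.card ≤ Nat.log 2 (Nat.card F) := by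
      rw [hR]
      refine (Multiset.toFinset_card_le _).trans ?_
      refine (Polynomial.card_roots' _).trans ?_
      rw [Polynomial.natDegree_map, hμ]
      exact (minpoly.natDegree_le _).trans hf
    have hsub : D.filter (fun c => (Quotient.mk'' (pr (hh (r c))) :
        MulAction.orbitRel.Quotient (MulAut (PS F)) (PS F)) = Quotient.mk'' (pr (hh (r c0)))) ⊆
        (Finset.univ.filter (fun c : Fˣ => (c : F) ∈ R)) ∪
        (Finset.univ.filter (fun c : Fˣ => ((c : F))⁻¹ ∈ R)) := by
      intro c hc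
      obtain ⟨hcD, hcq⟩ := Finset.mem_filter.1 hc
      have h1 : MulAction.orbitRel (MulAut (PS F)) (PS F) (pr (hh (r c))) (pr (hh (r c0))) :=
        Quotient.exact hcq
      rw [MulAction.orbitRel_apply] at h1
      obtain ⟨σ, hσ⟩ := h1
      have hσ' : σ (pr (hh (r c0))) = pr (hh (r c)) := hσ
      have hb4 : ((r c : Fˣ) : F) ^ 4 ≠ 1 := by
        intro h
        have h2 : c ^ 2 = 1 := by
          rw [← hr c hcD, ← pow_mul]
          apply Units.ext
          push_cast
          exact h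
        rw [hD, Finset.mem_filter] at hcD
        exact hcD.2 h2
      obtain ⟨φ, x, hφ1, hx, hφ⟩ := phi_exists p (r c0) (r c) hb4 σ hσ'
      have h3 := root_of_phi p φ _ x hφ1 hφ
      have hxR : x ∈ R := by
        rw [hR, Multiset.mem_toFinset, Polynomial.mem_aroots, hμ]
        exact ⟨minpoly.ne_zero hint, h3⟩
      have hcr : ((r c : Fˣ) : F) ^ 2 = (c : F) := by
        have := congrArg (fun u : Fˣ => (u : F)) (hr c hcD)
        simpa using this
      rw [Finset.mem_union, Finset.mem_filter, Finset.mem_filter]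
      rcases hx with hx | hx
      · left
        refine ⟨Finset.mem_univ _, ?_⟩
        rw [← hcr, ← hx]
        exact hxR
      · right
        refine ⟨Finset.mem_univ _, ?_⟩
        rw [← hcr, ← hx]
        exact hxR
    refine (Finset.card_le_card hsub).trans ((Finset.card_union_le _ _).trans ?_)
    have h4 : (Finset.univ.filter (fun c : Fˣ => (c : F) ∈ R)).card ≤ R.card := by
      apply Finset.card_le_card_of_injOn (fun c : Fˣ => (c : F))
      · intro c hc
        exact (Finset.mem_filter.1 (Finset.mem_coe.1 hc)).2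
      · intro b _ b' _ h
        exact Units.ext h
    have h5 : (Finset.univ.filter (fun c : Fˣ => ((c : F))⁻¹ ∈ R)).card ≤ R.card := by
      apply Finset.card_le_card_of_injOn (fun c : Fˣ => ((c : F))⁻¹)
      · intro c hc
        exact (Finset.mem_filter.1 (Finset.mem_coe.1 hc)).2
      · intro b _ b' _ h
        exact Units.ext (inv_injective h)
    omega
  have h6 := Finset.card_le_mul_card_image D (2 * Nat.log 2 (Nat.card F)) hfib
  refine hcardD.trans (h6.trans (Nat.mul_le_mul_left _ ?_))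
  refine (Finset.card_le_univ _).trans ?_
  unfold SR32.om
  rw [Nat.card_eq_fintype_card]

end PL3.S97
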