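import Pool.Agent.PL3.Defs
import Pool.Agent.SR32.Defs

/-!
# PL3/OrdS34: element orders
-/

set_option autoImplicit false

namespace PL3.S34

open Matrix

universe u

variable {F : Type u} [Field F]

theorem cay (M : Matrix (Fin 2) (Fin 2) F) (hd : M.det = 1) :
    M * M = (M 0 0 + M 1 1) • M - 1 := by
  rw [Matrix.det_fin_two] at hd
  ext i j
  fin_cases i <;> fin_cases j <;>
    simp [Matrix.mul_apply, Fin.sum_univ_two, Matrix.sub_apply, Matrix.smul_apply] <;>
    first
      | linear_combination (-1 : F) * hd
      | ring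

theorem pow_lin {K : Type u} [Field K] [Algebra F K] (M : Matrix (Fin 2) (Fin 2) F) (t : F)
    (hM : M * M = t • M - 1) (n : ℕ) : ∃ a b : F, M ^ n = a • M + b • (1 : Matrix (Fin 2) (Fin 2) F) ∧
      ∀ l : K, l * l = algebraMap F K t * l - 1 → l ^ n = algebraMap F K a * l + algebraMap F K b := by
  induction n with
  | zero => exact ⟨0, 1, by simp, fun l _ => by simp⟩
  | succ n ih =>
    obtain ⟨a, b, h1, h2⟩ := ih
    refine ⟨t * a + b, -a, ?_, ?_⟩
    · rw [pow_succ, h1, add_mul, smul_mul_assoc, smul_mul_assoc, one_mul, hM, smul_sub, smul_smul,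
        add_smul, neg_smul, mul_comm t a]
      abel
    · intro l hl
      rw [pow_succ, h2 l hl, map_add, map_mul, map_neg]
      linear_combination (algebraMap F K a) * hl

theorem one_add_pow (N : Matrix (Fin 2) (Fin 2) F) (hN : N * N = 0) (k : ℕ) :
    (1 + N) ^ k = 1 + (k : F) • N := by
  induction k with
  | zero => simp
  | succ k ih =>
    rw [pow_succ, ih, mul_add, mul_one, add_mul, one_mul, smul_mul_assoc, hN, smul_zero, add_zero]
    push_cast
    rw [add_smul, one_smul]
    abel

/-- the three cases -/
theorem pow_cases [Finite F] (p : ℕ) [CharP F p] (M : Matrix (Fin 2) (Fin 2) F) (hd : M.det = 1) :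
    M ^ (Nat.card F - 1) = 1 ∨ M ^ (Nat.card F + 1) = 1 ∨ M ^ (2 * p) = 1 := by
  have : Fintype F := Fintype.ofFinite F
  obtain ⟨t, ht⟩ : ∃ t, t = M 0 0 + M 1 1 := ⟨_, rfl⟩
  have hM := cay M hd
  rw [← ht] at hM
  obtain ⟨q, hq⟩ : ∃ q, q = Nat.card F := ⟨_, rfl⟩
  have hqF : q = Fintype.card F := by rw [hq, Nat.card_eq_fintype_card]
  have hq2 : 2 ≤ q := by
    rw [hqF]
    exact Fintype.one_lt_card
  rw [← hq]
  -- a root in the algebraic closure
  let K := AlgebraicClosure F
  obtain ⟨l, hl⟩ : ∃ l : K, l * l = algebraMap F K t * l - 1 := by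
    obtain ⟨l, hl⟩ := IsAlgClosed.exists_root
      (Polynomial.X ^ 2 - Polynomial.C (algebraMap F K t) * Polynomial.X + 1 : Polynomial K) (by
        have h1 : (Polynomial.X ^ 2 - Polynomial.C (algebraMap F K t) * Polynomial.X + 1 :
            Polynomial K).degree = 2 := by compute_degree!
        rw [h1]
        norm_num)
    refine ⟨l, ?_⟩
    rw [Polynomial.IsRoot.def] at hl
    simp only [Polynomial.eval_add, Polynomial.eval_sub, Polynomial.eval_pow, Polynomial.eval_X,
      Polynomial.eval_mul, Polynomial.eval_C, Polynomial.eval_one] at hl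
    linear_combination hl
  obtain ⟨m, hm⟩ : ∃ m : K, m = algebraMap F K t - l := ⟨_, rfl⟩
  have hlm : l * m = 1 := by rw [hm]; linear_combination (-1 : K) * hl
  have hml : m * m = algebraMap F K t * m - 1 := by rw [hm]; linear_combination hl
  have hl0 : l ≠ 0 := by
    rintro rfl
    simp at hlm
  -- Frobenius
  have hfr : l ^ q * l ^ q = algebraMap F K t * l ^ q - 1 := by
    have h1 := congrArg (FiniteField.frobeniusAlgHom F K) hl
    rw [map_mul, map_sub, map_mul, map_one, AlgHom.commutes] at h1
    have h2 : FiniteField.frobeniusAlgHom F K l = l ^ q := by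
      rw [hqF]
      rfl
    rw [h2] at h1
    exact h1
  have hor : l ^ q = l ∨ l ^ q = m := by
    have h1 : (l ^ q - l) * (l ^ q - m) = 0 := by
      rw [hm]
      linear_combination hfr - hl
    rcases mul_eq_zero.1 h1 with h2 | h2
    · exact Or.inl (sub_eq_zero.1 h2)
    · exact Or.inr (sub_eq_zero.1 h2)
  by_cases hne : l = m
  · -- a double root
    right; right
    have hl2 : l * l = 1 := by
      nth_rewrite 2 [hne]
      exact hlm
    have hinj : Function.Injective (algebraMap F K) := (algebraMap F K).injective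
    obtain ⟨e, he, hte⟩ : ∃ e : F, e * e = 1 ∧ t = 2 * e := by
      rcases mul_self_eq_one_iff.1 hl2 with h1 | h1
      · refine ⟨1, one_mul 1, hinj ?_⟩
        rw [mul_one, map_ofNat]
        have h2 : algebraMap F K t = m + l := by rw [hm]; ring
        rw [h2, ← hne, h1]
        ring
      · refine ⟨-1, by ring, hinj ?_⟩
        have h2 : algebraMap F K t = m + l := by rw [hm]; ring
        rw [h2, ← hne, h1, map_mul, map_neg, map_one, map_ofNat]
        ring
    -- `M² = 1 + N'`, `N'² = 0`
    have h1 : (M * M - 1) * (M * M - 1) = 0 := by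
      have h2 : M * M - 1 = (2 * e) • M - (2 : F) • (1 : Matrix (Fin 2) (Fin 2) F) := by
        rw [hM, hte, two_smul]
        abel
      rw [h2, sub_mul, mul_sub, mul_sub, smul_mul_smul_comm, smul_mul_smul_comm, smul_mul_smul_comm,
        smul_mul_smul_comm, one_mul, mul_one, mul_one, hM, hte, smul_sub, smul_smul]
      have e1 : (2 * e * (2 * e) * (2 * e) : F) = 8 * e := by linear_combination (8 * e) * he
      have e2 : (2 * e * (2 * e) : F) = 4 := by linear_combination (4 : F) * he
      rw [e1, e2]
      module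
    have h3 := one_add_pow (M * M - 1) h1 p
    rw [CharP.cast_eq_zero, zero_smul, add_zero] at h3
    rw [pow_mul, pow_two]
    have h4 : M * M = 1 + (M * M - 1) := by abel
    rw [h4]
    exact h3
  · have key : ∀ n : ℕ, l ^ n = 1 → M ^ n = 1 := by
      intro n hn
      have hmn : m ^ n = 1 := by
        have h1 : (l * m) ^ n = 1 := by rw [hlm, one_pow]
        rw [mul_pow, hn, one_mul] at h1
        exact h1
      obtain ⟨a, b, h1, h2⟩ := pow_lin (K := K) M t hM n
      have h3 := h2 l hl
      have h4 := h2 m hml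
      rw [hn] at h3
      rw [hmn] at h4
      have h5 : algebraMap F K a * (l - m) = 0 := by linear_combination h4 - h3
      have h6 : a = 0 := by
        rcases mul_eq_zero.1 h5 with h | h
        · exact (map_eq_zero (algebraMap F K)).1 h
        · exact absurd (sub_eq_zero.1 h) hne
      have h7 : b = 1 := by
        apply (algebraMap F K).injective
        rw [h6, map_zero, zero_mul, zero_add] at h3
        rw [← h3, map_one]
      rw [h1, h6, h7, zero_smul, one_smul, zero_add]
    rcases hor with h1 | h1
    · left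
      apply key
      have h2 : l ^ (q - 1) * l = 1 * l := by
        rw [← pow_succ, Nat.sub_add_cancel (by omega), h1, one_mul]
      exact mul_right_cancel₀ hl0 h2
    · right; left
      apply key
      rw [pow_succ, h1, mul_comm]
      exact hlm

theorem oo_PS (F : Type u) [Field F] [Finite F] : SR32.oo (PS F) ≤
    (Nat.card F - 1).divisors.card + (Nat.card F + 1).divisors.card + 4 := by
  classical
  obtain ⟨p, hp⟩ := CharP.exists F
  have : Fintype F := Fintype.ofFinite F
  have hpp : p.Prime := (CharP.char_is_prime_or_zero F p).resolve_right (CharP.char_ne_zero_of_finite F p)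
  have hq2 : 2 ≤ Nat.card F := by
    rw [Nat.card_eq_fintype_card]
    exact Fintype.one_lt_card
  have hsub : Set.range (fun g : PS F => orderOf g) ⊆
      (((Nat.card F - 1).divisors ∪ (Nat.card F + 1).divisors) ∪ (2 * p).divisors : Finset ℕ) := by
    rintro _ ⟨x, rfl⟩
    obtain ⟨g, rfl⟩ := QuotientGroup.mk_surjective x
    have hpw : ∀ n : ℕ, n ≠ 0 → (g : Matrix (Fin 2) (Fin 2) F) ^ n = 1 →
        orderOf (QuotientGroup.mk g : PS F) ∈ n.divisors := by
      intro n hn h1
      rw [Nat.mem_divisors]
      refine ⟨orderOf_dvd_of_pow_eq_one ?_, hn⟩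
      have h2 : g ^ n = 1 := by
        apply Matrix.SpecialLinearGroup.ext
        intro i j
        rw [Matrix.SpecialLinearGroup.coe_pow, h1]
        rfl
      have h3 : (QuotientGroup.mk g : PS F) ^ n = QuotientGroup.mk (g ^ n) := rfl
      rw [h3, h2]
      rfl
    simp only [Finset.coe_union, Set.mem_union, Finset.mem_coe]
    rcases pow_cases p (g : Matrix (Fin 2) (Fin 2) F) g.2 with h | h | h
    · exact Or.inl (Or.inl (hpw _ (by omega) h))
    · exact Or.inl (Or.inr (hpw _ (by omega) h))
    · exact Or.inr (hpw _ (by have := hpp.pos; omega) h)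
  have h4 : (2 * p).divisors.card ≤ 4 := by
    rw [Nat.divisors_mul]
    refine (Finset.card_mul_le).trans ?_
    rw [hpp.divisors, Nat.prime_two.divisors]
    calc _ ≤ 2 * 2 := Nat.mul_le_mul Finset.card_le_two Finset.card_le_two
      _ = 4 := rfl
  unfold SR32.oo
  refine (Set.ncard_le_ncard hsub (Finset.finite_toSet _)).trans ?_
  rw [Set.ncard_coe_finset]
  refine (Finset.card_union_le _ _).trans ?_
  have := Finset.card_union_le (Nat.card F - 1).divisors (Nat.card F + 1).divisors
  omega

end PL3.S34
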