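import Pool.Agent.PL3.OutS81

/-!
# PL3/Out : the outer automorphism group
-/

set_option autoImplicit false

namespace PL3

open Matrix

universe u

/-- PROOF. Every coset of the inner automorphisms contains a `Good` automorphism `α` (`rep_good`) with `φ 1 ∈ R` (`sq_rep`, multiply by `conj (h a)`, which is `Good` and changes `φ` to
`a ^ 2 * φ`). With `a`, `D` from `root_count` and `d = b ^ 2` from `good_phi`, the map (coset) to `(φ 1, d)` is injective into `R × D`: `root_count`, `good_inj`. -/
theorem out_index (F : Type u) [Field F] [Finite F] (h4 : 4 ≤ Nat.card F) :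
    (MulAut.conj : PS F →* MulAut (PS F)).range.index ≤ 2 * Nat.log 2 (Nat.card F) :=
  S81.out_index F h4

end PL3
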