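import Pool.Agent.PL3.Norm

/-!
# PL3/PhiS32: an automorphism that fixes the upper and the lower unitriangular matrices
-/

set_option autoImplicit false

namespace PL3.S32

open Matrix PL3

universe u

/-- an injective map of a finite field into itself given by a relation is onto -/
theorem onto_of {F : Type u} [Finite F] {G : Type u} (c : F → G)
    (γ : G → G) (hγ : Function.Injective γ) (hc : Function.Injective c)
    (h : ∀ x, ∃ y, γ (c x) = c y) (y : F) : ∃ x, γ (c x) = c y := by
  choose f hf using h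
  have hinj : Function.Injective f := by
    intro a b hab
    apply hc
    apply hγ
    rw [hf a, hf b, hab]
  obtain ⟨x, hx⟩ := (Finite.injective_iff_surjective.1 hinj) y
  exact ⟨x, by rw [hf x, hx]⟩

theorem good_inj {F : Type u} [Field F] [Finite F] {α β : MulAut (PS F)} (hα : Good α)
    (hβ : Good β) (e : ∀ x, α (u x) = β (u x)) : α = β := by
  have hUinj : Function.Injective (fun x : F => u x) := fun x y hxy => u_inj hxy
  have hVinj : Function.Injective (fun x : F => v x) := fun x y hxy => v_inj hxy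
  -- the automorphism `γ`
  obtain ⟨γ, hγ⟩ : ∃ γ : MulAut (PS F), ∀ s, γ s = β.symm (α s) :=
    ⟨β⁻¹ * α, fun s => rfl⟩
  have hγu : ∀ x, γ (u x) = u x := by
    intro x
    rw [hγ, e x]
    exact β.symm_apply_apply _
  have hγv : ∀ x, ∃ y, γ (v x) = v y := by
    intro x
    obtain ⟨y, hy⟩ := hα.2 x
    obtain ⟨z, hz⟩ := onto_of (fun x : F => v x) β β.injective hVinj hβ.2 y
    refine ⟨z, ?_⟩
    rw [hγ, hy, MulEquiv.symm_apply_eq]
    exact hz.symm
  -- `γ` maps every conjugate of `U` to itself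
  have hA : ∀ (c : PS F) (x : F), ∃ x', γ (c * u x * c⁻¹) = c * u x' * c⁻¹ := by
    intro c x
    rcases conj_U c with h1 | ⟨z, h1, h2⟩
    · obtain ⟨y, hy⟩ := h1 x
      exact ⟨x, by rw [hy, hγu]⟩
    · obtain ⟨y, hy⟩ := h1 x
      obtain ⟨y', hy'⟩ := hγv y
      obtain ⟨x', hx'⟩ := h2 y'
      refine ⟨x', ?_⟩
      rw [hy, hx', map_mul, map_mul, map_inv, hγu, hy']
  have hcinj : ∀ c : PS F, Function.Injective (fun x : F => c * u x * c⁻¹) := by
    intro c x y hxy
    have h1 : c * u x * c⁻¹ = c * u y * c⁻¹ := hxy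
    exact u_inj (mul_left_cancel (mul_right_cancel h1))
  have hone : ∀ s, γ s = s := by
    intro s
    have hB : ∀ (c : PS F) (x : F), ∃ y,
        (s⁻¹ * γ s) * (c * u x * c⁻¹) * (s⁻¹ * γ s)⁻¹ = c * u y * c⁻¹ := by
      intro c x
      obtain ⟨x0, hx0⟩ := onto_of (fun x : F => c * u x * c⁻¹) γ γ.injective (hcinj c) (hA c) x
      obtain ⟨x1, hx1⟩ := hA (s * c) x0
      refine ⟨x1, ?_⟩
      have h3 : γ (s * c * u x0 * (s * c)⁻¹) = γ s * γ (c * u x0 * c⁻¹) * (γ s)⁻¹ := by
        rw [← map_inv, ← map_mul, ← map_mul]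
        congr 1
        group
      have h4 : γ (c * u x0 * c⁻¹) = c * u x * c⁻¹ := hx0
      rw [h3, h4] at hx1
      have h5 : (s⁻¹ * γ s) * (c * u x * c⁻¹) * (s⁻¹ * γ s)⁻¹ =
          s⁻¹ * (γ s * (c * u x * c⁻¹) * (γ s)⁻¹) * s := by group
      rw [h5, hx1]
      group
    have hg : s⁻¹ * γ s = 1 := by
      apply norm_all
      · intro x
        obtain ⟨y, hy⟩ := hB 1 x
        refine ⟨y, ?_⟩
        simpa using hy
      · intro z x
        obtain ⟨y, hy⟩ := hB (u z * w) (-x)
        refine ⟨-y, ?_⟩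
        have h6 : ∀ t : F, u z * w * u t * (u z * w)⁻¹ = u z * v (-t) * (u z)⁻¹ := by
          intro t
          rw [← w_u t]
          group
        rw [h6, h6, neg_neg] at hy
        exact hy
    exact (inv_mul_eq_one.1 hg).symm
  ext s
  have h7 := hone s
  rw [hγ, MulEquiv.symm_apply_eq] at h7
  exact h7

end PL3.S32
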