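import Pool.Agent.PL3.Norm

/-!
# PL3/PhiS46: `good_phi` (helper46)
-/

set_option autoImplicit false

namespace PL3.S46

open Matrix PL3

universe u

theorem good_phi {F : Type u} [Field F] [Finite F] {α : MulAut (PS F)} (hα : Good α) :
    ∃ φ : F →+ F, Function.Injective φ ∧ (∀ x, α (u x) = u (φ x)) ∧
      ∀ a : Fˣ, ∃ b : Fˣ, ∀ x, φ ((a : F) ^ 2 * x) = (b : F) ^ 2 * φ x := by
  obtain ⟨hu, hv⟩ := hα
  choose φ₀ hφ using hu
  choose ψ₀ hψ using hv
  have hφi : Function.Injective φ₀ := by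
    intro x y hxy
    apply u_inj
    apply α.injective
    rw [hφ, hφ, hxy]
  have hψi : Function.Injective ψ₀ := by
    intro x y hxy
    apply v_inj
    apply α.injective
    rw [hψ, hψ, hxy]
  have hφs : Function.Surjective φ₀ := Finite.injective_iff_surjective.1 hφi
  have hψs : Function.Surjective ψ₀ := Finite.injective_iff_surjective.1 hψi
  have hadd : ∀ x y, φ₀ (x + y) = φ₀ x + φ₀ y := by
    intro x y
    apply u_inj
    rw [← hφ, u_add, map_mul, hφ, hφ, ← u_add]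
  have hact : ∀ (a : Fˣ) (x : F), α (h a) * u (φ₀ x) * (α (h a))⁻¹ = u (φ₀ ((a : F) ^ 2 * x)) := by
    intro a x
    rw [← hφ, ← hφ, ← h_u, map_mul, map_mul, map_inv]
  refine ⟨AddMonoidHom.mk' φ₀ hadd, hφi, hφ, fun a => ?_⟩
  obtain ⟨b, hb⟩ := norm_UV (α (h a)) (by
    intro x
    obtain ⟨x', rfl⟩ := hφs x
    exact ⟨_, hact a x'⟩) (by
    intro x
    obtain ⟨x', rfl⟩ := hψs x
    refine ⟨ψ₀ (((a⁻¹ : Fˣ) : F) ^ 2 * x'), ?_⟩
    rw [← hψ, ← hψ, ← h_v, map_mul, map_mul, map_inv])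
  refine ⟨b, fun x => ?_⟩
  apply u_inj
  change u (φ₀ ((a : F) ^ 2 * x)) = u ((b : F) ^ 2 * φ₀ x)
  rw [← hact, hb, h_u]

end PL3.S46
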