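import Pool.Agent.PL3.Norm
import Pool.Agent.PL3.PhiS46
import Pool.Agent.PL3.PhiS32

/-!
# PL3/Phi (STUB): automorphisms that fix two Sylow subgroups
-/

set_option autoImplicit false

namespace PL3

open Matrix

universe u

/-- PROOF. `φ` injective, so onto (`F` finite); `α (h a)` normalizes `U` and `V`, so is `h b` (`norm_UV`); `h_u`, `u_inj`. -/
theorem good_phi {F : Type u} [Field F] [Finite F] {α : MulAut (PS F)} (hα : Good α) :
    ∃ φ : F →+ F, Function.Injective φ ∧ (∀ x, α (u x) = u (φ x)) ∧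
      ∀ a : Fˣ, ∃ b : Fˣ, ∀ x, φ ((a : F) ^ 2 * x) = (b : F) ^ 2 * φ x :=
  S46.good_phi hα

/-- PROOF. `γ = β⁻¹ * α` is the identity on `U` and maps `V` to `V`, so it maps every conjugate of `U` to itself (`conj_U`); so `s⁻¹ * γ s` normalizes every
conjugate of `U`, and is `1` by `norm_all`. -/
theorem good_inj {F : Type u} [Field F] [Finite F] {α β : MulAut (PS F)} (hα : Good α)
    (hβ : Good β) (e : ∀ x, α (u x) = β (u x)) : α = β := S32.good_inj hα hβ e

end PL3
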