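import Mathlib

/-!
# PL3/RootS5: additive maps with `φ (c x) = d φ x` (helper5)
-/

set_option autoImplicit false

namespace PL3.S5

open Matrix

universe u

theorem agree {F : Type u} [Field F] [Finite F] (a : Fˣ)
    (ha : ∀ b : Fˣ, b ∈ Subgroup.zpowers a) (φ ψ : F →+ F) (d : F)
    (h1 : ∀ x, φ ((a : F) ^ 2 * x) = d * φ x) (h2 : ∀ x, ψ ((a : F) ^ 2 * x) = d * ψ x)
    (h : φ 1 = ψ 1) : φ = ψ := by
  have hpow : ∀ n : ℕ, φ (((a : F) ^ n) ^ 2) = ψ (((a : F) ^ n) ^ 2) := by
    intro n
    induction n with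
    | zero => simpa using h
    | succ n ih =>
      have e : ((a : F) ^ (n + 1)) ^ 2 = (a : F) ^ 2 * ((a : F) ^ n) ^ 2 := by ring
      rw [e, h1, h2, ih]
  have hsq : ∀ y : F, φ (y ^ 2) = ψ (y ^ 2) := by
    intro y
    by_cases hy : y = 0
    · rw [hy]
      simp
    · have h3 := ha (Units.mk0 y hy)
      rw [← mem_powers_iff_mem_zpowers] at h3
      obtain ⟨n, hn⟩ := h3
      have h4 : (a : F) ^ n = y := by
        have := congrArg (fun z : Fˣ => (z : F)) hn
        simpa using this
      rw [← h4]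
      exact hpow n
  ext x
  by_cases h2' : (2 : F) = 0
  · have hchar : ringChar F = 2 := by
      have h5 : ringChar F ∣ 2 := by
        exact (ringChar.spec F 2).1 (by exact_mod_cast h2')
      have h6 : ringChar F ≠ 1 := CharP.ringChar_ne_one
      exact ((Nat.dvd_prime Nat.prime_two).1 h5).resolve_left h6
    obtain ⟨y, hy⟩ := FiniteField.isSquare_of_char_two hchar x
    rw [hy, ← sq]
    exact hsq y
  · have e : x = ((x + 1) / 2) ^ 2 - ((x - 1) / 2) ^ 2 := by
      field_simp
      ring
    rw [e, map_sub, map_sub, hsq, hsq]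

theorem root_count (F : Type u) [Field F] [Finite F] (h4 : 4 ≤ Nat.card F) :
    ∃ (a : Fˣ) (D : Finset F), D.card ≤ Nat.log 2 (Nat.card F) ∧
    (∀ (φ : F →+ F) (d : F), Function.Injective φ → (∀ x, φ ((a : F) ^ 2 * x) = d * φ x) → d ∈ D) ∧
    ∀ (φ ψ : F →+ F) (d : F), (∀ x, φ ((a : F) ^ 2 * x) = d * φ x) →
      (∀ x, ψ ((a : F) ^ 2 * x) = d * ψ x) → φ 1 = ψ 1 → φ = ψ := by
  classical
  have hF : Fintype F := Fintype.ofFinite F
  obtain ⟨a, ha⟩ := IsCyclic.exists_generator (α := Fˣ)
  set p := ringChar F with hp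
  have hpp : p.Prime := by
    rcases CharP.char_is_prime_or_zero F p with h | h
    · exact h
    · exact absurd h (CharP.char_ne_zero_of_finite F p)
  have : Fact p.Prime := ⟨hpp⟩
  let _ : Algebra (ZMod p) F := ZMod.algebra F p
  have hfin : Module.Finite (ZMod p) F := Module.Finite.of_finite
  have hint : IsIntegral (ZMod p) ((a : F) ^ 2) := IsIntegral.of_finite _ _
  set m := minpoly (ZMod p) ((a : F) ^ 2) with hm
  have hm0 : m ≠ 0 := minpoly.ne_zero hint
  have hdeg : m.natDegree ≤ Module.finrank (ZMod p) F := minpoly.natDegree_le _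
  have hcard : Nat.card F = p ^ Module.finrank (ZMod p) F := by
    rw [Module.natCard_eq_pow_finrank (K := ZMod p) (V := F), Nat.card_zmod]
  have hlog : Module.finrank (ZMod p) F ≤ Nat.log 2 (Nat.card F) := by
    rw [hcard]
    apply Nat.le_log_of_pow_le (by norm_num)
    exact Nat.pow_le_pow_left hpp.two_le _
  have hmap0 : m.map (algebraMap (ZMod p) F) ≠ 0 :=
    (Polynomial.map_ne_zero_iff (algebraMap (ZMod p) F).injective).2 hm0
  refine ⟨a, (m.map (algebraMap (ZMod p) F)).roots.toFinset, ?_, ?_, ?_⟩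
  · calc (m.map (algebraMap (ZMod p) F)).roots.toFinset.card
        ≤ Multiset.card (m.map (algebraMap (ZMod p) F)).roots := Multiset.toFinset_card_le _
      _ ≤ (m.map (algebraMap (ZMod p) F)).natDegree := Polynomial.card_roots' _
      _ ≤ m.natDegree := Polynomial.natDegree_map_le
      _ ≤ _ := hdeg.trans hlog
  · intro φ d hφ hd
    rw [Multiset.mem_toFinset, Polynomial.mem_roots hmap0, Polynomial.IsRoot.def,
      Polynomial.eval_map_algebraMap]
    -- `φ` is linear over the prime field
    have hlin : ∀ (c : ZMod p) (x : F), φ (c • x) = c • φ x :=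
      fun c x => (φ.toZModLinearMap p).map_smul c x
    have hpw : ∀ (n : ℕ) (x : F), φ (((a : F) ^ 2) ^ n * x) = d ^ n * φ x := by
      intro n
      induction n with
      | zero => intro x; simp
      | succ n ih =>
        intro x
        have e : ((a : F) ^ 2) ^ (n + 1) * x = (a : F) ^ 2 * (((a : F) ^ 2) ^ n * x) := by ring
        rw [e, hd, ih]
        ring
    have hpoly : ∀ P : Polynomial (ZMod p),
        φ (Polynomial.aeval ((a : F) ^ 2) P) = Polynomial.aeval d P * φ 1 := by
      intro P
      induction P using Polynomial.induction_on' with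
      | add P Q h1 h2 => rw [map_add, map_add, h1, h2, map_add, add_mul]
      | monomial n c =>
        rw [Polynomial.aeval_monomial, Polynomial.aeval_monomial, ← Algebra.smul_def,
          ← Algebra.smul_def, hlin]
        have h5 := hpw n 1
        rw [mul_one] at h5
        rw [h5, smul_mul_assoc]
    have h6 := hpoly m
    rw [hm, minpoly.aeval, map_zero] at h6
    have h7 : φ 1 ≠ 0 := fun h8 => one_ne_zero (hφ (h8.trans (map_zero φ).symm))
    exact (mul_eq_zero.1 h6.symm).resolve_right h7
  · intro φ ψ d h1 h2 h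
    exact agree a ha φ ψ d h1 h2 h

end PL3.S5
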