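import Mathlib
import Pool.Agent.PL3.RootS5

/-!
# PL3/Root (STUB): additive maps with `φ (c x) = d φ x`
-/

set_option autoImplicit false

namespace PL3

open Matrix

universe u

/-- PROOF. `a` a generator of the units, `D` = roots in `F` of the minimal polynomial of `a ^ 2` over `ZMod p`; its degree is at most `f ≤ log2 q`. Additive maps are
`ZMod p`-linear, so `(aeval d m) * φ 1 = φ (aeval (a ^ 2) m) = 0`. Second part: `{x | φ x = ψ x}` is an additive subgroup that contains `1` and is closed under `a ^ 2 * _`, so it contains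
all squares, and every element is a sum of two squares (or a square, if `p = 2`). -/
theorem root_count (F : Type u) [Field F] [Finite F] (h4 : 4 ≤ Nat.card F) :
    ∃ (a : Fˣ) (D : Finset F), D.card ≤ Nat.log 2 (Nat.card F) ∧
    (∀ (φ : F →+ F) (d : F), Function.Injective φ → (∀ x, φ ((a : F) ^ 2 * x) = d * φ x) → d ∈ D) ∧
    ∀ (φ ψ : F →+ F) (d : F), (∀ x, φ ((a : F) ^ 2 * x) = d * φ x) →
      (∀ x, ψ ((a : F) ^ 2 * x) = d * ψ x) → φ 1 = ψ 1 → φ = ψ :=
  S5.root_count F h4

end PL3
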