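import Pool.Agent.PL3.Rep
import Pool.Agent.PL3.Phi
import Pool.Agent.PL3.Root

/-!
# PL3/OutS81: the outer automorphism group
-/

set_option autoImplicit false

namespace PL3.S81

open Matrix

universe u

theorem mk_conj_mul {G : Type u} [Group G] (s : G) (α : MulAut G) :
    (QuotientGroup.mk α : MulAut G ⧸ (MulAut.conj : G →* MulAut G).range) =
      QuotientGroup.mk (MulAut.conj s * α) := by
  rw [QuotientGroup.eq]
  refine ⟨α⁻¹ s, ?_⟩
  ext x
  simp [MulAut.conj_apply, MulAut.mul_apply]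

theorem rep2 {F : Type u} [Field F] [Finite F] {R : Finset F}
    (hR : ∀ c : F, c ≠ 0 → ∃ a : Fˣ, (a : F) ^ 2 * c ∈ R) (a : Fˣ) {D : Finset F}
    (hD : ∀ (φ : F →+ F) (d : F), Function.Injective φ →
      (∀ x, φ ((a : F) ^ 2 * x) = d * φ x) → d ∈ D) (α : MulAut (PS F)) :
    ∃ (β : MulAut (PS F)) (φ : F →+ F) (d : F), Good β ∧ (∀ x, β (u x) = u (φ x)) ∧
      (QuotientGroup.mk α : MulAut (PS F) ⧸ (MulAut.conj : PS F →* MulAut (PS F)).range) =
        QuotientGroup.mk β ∧ φ 1 ∈ R ∧ d ∈ D ∧ ∀ x, φ ((a : F) ^ 2 * x) = d * φ x := by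
  obtain ⟨s, hs⟩ := rep_good α
  obtain ⟨φ, h1, h2, h3⟩ := good_phi hs
  have h4 : φ 1 ≠ 0 := by
    intro h
    exact one_ne_zero (h1 (h.trans (map_zero φ).symm))
  obtain ⟨c, hc⟩ := hR (φ 1) h4
  have hc0 : ((c : F) ^ 2) ≠ 0 := pow_ne_zero 2 c.ne_zero
  have happ : ∀ g : PS F, (MulAut.conj (h c) * (MulAut.conj s * α)) g =
      h c * (MulAut.conj s * α) g * (h c)⁻¹ := by
    intro g
    rfl
  obtain ⟨b, hb⟩ := h3 a
  have hφ : ∀ x, ((AddMonoidHom.mulLeft ((c : F) ^ 2)).comp φ) ((a : F) ^ 2 * x) =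
      (b : F) ^ 2 * ((AddMonoidHom.mulLeft ((c : F) ^ 2)).comp φ) x := by
    intro x
    simp only [AddMonoidHom.comp_apply, AddMonoidHom.coe_mulLeft]
    rw [hb x]
    ring
  refine ⟨MulAut.conj (h c) * (MulAut.conj s * α), (AddMonoidHom.mulLeft ((c : F) ^ 2)).comp φ,
    (b : F) ^ 2, ⟨?_, ?_⟩, ?_, ?_, ?_, ?_, hφ⟩
  · intro x
    obtain ⟨y, hy⟩ := hs.1 x
    exact ⟨_, by rw [happ, hy, h_u]⟩
  · intro x
    obtain ⟨y, hy⟩ := hs.2 x
    exact ⟨_, by rw [happ, hy, h_v]⟩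
  · intro x
    rw [happ, h2 x, h_u]
    rfl
  · rw [mk_conj_mul s α, mk_conj_mul (h c)]
  · exact hc
  · refine hD _ _ ?_ hφ
    intro x y hxy
    exact h1 (mul_left_cancel₀ hc0 hxy)

theorem out_index (F : Type u) [Field F] [Finite F] (h4 : 4 ≤ Nat.card F) :
    (MulAut.conj : PS F →* MulAut (PS F)).range.index ≤ 2 * Nat.log 2 (Nat.card F) := by
  classical
  obtain ⟨R, hR1, hR2⟩ := sq_rep F
  obtain ⟨a, D, hD1, hD2, hD3⟩ := root_count F h4
  choose β φ d h1 h2 h3 h5 h6 h7 using fun α => rep2 hR2 a hD2 α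
  have key : Function.Injective
      (fun q : MulAut (PS F) ⧸ (MulAut.conj : PS F →* MulAut (PS F)).range =>
        (⟨(φ q.out 1, d q.out), Finset.mem_product.2 ⟨h5 _, h6 _⟩⟩ : ↥(R ×ˢ D))) := by
    intro q r hqr
    have e := congrArg Subtype.val hqr
    have e1 : φ q.out 1 = φ r.out 1 := congrArg Prod.fst e
    have e2 : d q.out = d r.out := congrArg Prod.snd e
    have e3 : φ q.out = φ r.out := hD3 _ _ (d q.out) (h7 q.out) (by rw [e2]; exact h7 r.out) e1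
    have e4 : β q.out = β r.out := good_inj (h1 _) (h1 _) (fun x => by rw [h2, h2, e3])
    rw [← QuotientGroup.out_eq' q, ← QuotientGroup.out_eq' r, h3 q.out, h3 r.out, e4]
  have := Nat.card_le_card_of_injective _ key
  calc (MulAut.conj : PS F →* MulAut (PS F)).range.index
      = Nat.card (MulAut (PS F) ⧸ (MulAut.conj : PS F →* MulAut (PS F)).range) := rfl
    _ ≤ Nat.card ↥(R ×ˢ D) := this
    _ = (R ×ˢ D).card := by
      rw [Nat.card_eq_fintype_card, Fintype.card_coe]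
    _ = R.card * D.card := Finset.card_product R D
    _ ≤ 2 * Nat.log 2 (Nat.card F) := Nat.mul_le_mul hR1 hD1

end PL3.S81
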