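import Pool.Agent.PL3.SylS52

/-!
# PL3/Syl: Sylow subgroups (proof in `SylS52`)
-/

set_option autoImplicit false

namespace PL3

open Matrix

universe u

theorem sylow_U {F : Type u} [Field F] [Finite F] (α : MulAut (PS F)) :
    ∃ s : PS F, ∀ x, ∃ y, s * α (u x) * s⁻¹ = u y :=
  S52.sylow_U α

end PL3
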