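import Pool.Agent.PL3.Norm
import Pool.Agent.PL3.Syl

/-!
# PL3/RepS92: representatives of the outer automorphisms
-/

set_option autoImplicit false

namespace PL3.S92

open Matrix

universe u

theorem uv_eq {F : Type u} [Field F] {x y : F} (e : u x = v y) : y = 0 := by
  unfold u v at e
  rw [QuotientGroup.eq] at e
  rw [Matrix.SpecialLinearGroup.mem_center_iff] at e
  obtain ⟨r, -, hr⟩ := e
  have h1 := congrFun (congrFun hr 1) 0
  simpa [uM, vM, Matrix.SpecialLinearGroup.coe_inv, Matrix.adjugate_fin_two,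
    Matrix.mul_apply, Fin.sum_univ_two] using h1.symm

theorem rep_good {F : Type u} [Field F] [Finite F] (α : MulAut (PS F)) :
    ∃ s : PS F, Good (MulAut.conj s * α) := by
  obtain ⟨s1, hs1⟩ := sylow_U α
  have hv : ∀ x : F, v x = w * u (-x) * w⁻¹ := by
    intro x
    have h := w_u (-x)
    rw [neg_neg] at h
    exact h.symm
  have hα : ∀ g : PS F, s1 * α g * s1⁻¹ = (MulAut.conj s1 * α) g := by
    intro g
    rw [MulAut.mul_apply, MulAut.conj_apply]
  set β : MulAut (PS F) := MulAut.conj s1 * α with hβ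
  have hβu : ∀ x : F, ∃ y : F, β (u x) = u y := by
    intro x
    obtain ⟨y, hy⟩ := hs1 x
    exact ⟨y, by rw [← hα, hy]⟩
  have hβv : ∀ x : F, ∃ y : F, β (v x) = β w * u y * (β w)⁻¹ := by
    intro x
    obtain ⟨y, hy⟩ := hβu (-x)
    exact ⟨y, by rw [hv x, map_mul, map_mul, map_inv, hy]⟩
  rcases conj_U (β w) with h1 | ⟨z, h1, -⟩
  · exfalso
    choose f hf using hβu
    have hinj : Function.Injective f := by
      intro a b hab
      apply u_inj
      apply β.injective
      rw [hf, hf, hab]
    have hsurj : Function.Surjective f := Finite.surjective_of_injective hinj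
    obtain ⟨y, hy⟩ := hβv 1
    obtain ⟨y', hy'⟩ := h1 y
    obtain ⟨x, hx⟩ := hsurj y'
    have e : u x = v (1 : F) := by
      apply β.injective
      rw [hf, hx, hy, hy']
    exact one_ne_zero (uv_eq e)
  · have hcomm : ∀ a b : F, (u a)⁻¹ * u b * u a = u b := by
      intro a b
      have : u b * u a = u a * u b := by rw [← u_add, ← u_add, add_comm]
      rw [mul_assoc, this, inv_mul_cancel_left]
    refine ⟨(u z)⁻¹ * s1, ?_, ?_⟩
    · intro x
      obtain ⟨y, hy⟩ := hβu x
      refine ⟨y, ?_⟩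
      rw [map_mul, mul_assoc, ← hβ, MulAut.mul_apply, MulAut.conj_apply, hy, inv_inv, hcomm]
    · intro x
      obtain ⟨y, hy⟩ := hβv x
      obtain ⟨y', hy'⟩ := h1 y
      refine ⟨y', ?_⟩
      rw [map_mul, mul_assoc, ← hβ, MulAut.mul_apply, MulAut.conj_apply, hy, hy', inv_inv]
      group

end PL3.S92
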