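import Pool.Agent.PL3.RepS89
import Pool.Agent.PL3.Norm
import Pool.Agent.PL3.Syl
import Pool.Agent.PL3.RepS92

/-!
# PL3/Rep (STUB): representatives of the outer automorphisms
-/

set_option autoImplicit false

namespace PL3

open Matrix

universe u

/-- PROOF. `s1` from `sylow_U`, `α1 = conj s1 * α`; `v x = w * u (-x) * w⁻¹`; `conj_U` for `g = α1 w`: the first case gives `α1 (v 1) ∈ U = α1 U`, impossible; the second
case: `s = (u z)⁻¹ * s1`. -/
theorem rep_good {F : Type u} [Field F] [Finite F] (α : MulAut (PS F)) :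
    ∃ s : PS F, Good (MulAut.conj s * α) := S92.rep_good α

/-- `R` represents the units modulo squares. PROOF. `R = {1, g}`, `g` a generator of the units. -/
theorem sq_rep (F : Type u) [Field F] [Finite F] : ∃ R : Finset F, R.card ≤ 2 ∧
    ∀ c : F, c ≠ 0 → ∃ a : Fˣ, (a : F) ^ 2 * c ∈ R := S89.sq_rep F

end PL3
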