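import Pool.Agent.PL3.Defs

/-!
# PL3/Rep: sq_rep, and Mat.bruhat (helper89)
-/

set_option autoImplicit false

namespace PL3.S89

open Matrix

universe u

theorem sq_rep (F : Type u) [Field F] [Finite F] : ∃ R : Finset F, R.card ≤ 2 ∧
    ∀ c : F, c ≠ 0 → ∃ a : Fˣ, (a : F) ^ 2 * c ∈ R := by
  classical
  obtain ⟨g, hg⟩ := IsCyclic.exists_generator (α := Fˣ)
  refine ⟨{1, (g : F)}, Finset.card_le_two, fun c hc => ?_⟩
  obtain ⟨k, hk⟩ := Subgroup.mem_zpowers_iff.1 (hg (Units.mk0 c hc))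
  have hkc : c = ((g ^ k : Fˣ) : F) := by
    rw [hk]
    rfl
  obtain ⟨m, hm | hm⟩ := Int.even_or_odd' k
  · refine ⟨g ^ (-m), ?_⟩
    have h1 : (g ^ (-m)) ^ 2 * g ^ k = 1 := by
      rw [← zpow_natCast, ← _root_.zpow_mul, ← _root_.zpow_add, hm]
      have : -m * ((2 : ℕ) : ℤ) + 2 * m = 0 := by push_cast; ring
      rw [this, zpow_zero]
    have h2 : ((g ^ (-m) : Fˣ) : F) ^ 2 * c = 1 := by
      rw [hkc, ← Units.val_pow_eq_pow_val, ← Units.val_mul, h1, Units.val_one]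
    rw [h2]
    exact Finset.mem_insert_self _ _
  · refine ⟨g ^ (-m), ?_⟩
    have h1 : (g ^ (-m)) ^ 2 * g ^ k = g := by
      rw [← zpow_natCast, ← _root_.zpow_mul, ← _root_.zpow_add, hm]
      have : -m * ((2 : ℕ) : ℤ) + (2 * m + 1) = 1 := by push_cast; ring
      rw [this, zpow_one]
    have h2 : ((g ^ (-m) : Fˣ) : F) ^ 2 * c = g := by
      rw [hkc, ← Units.val_pow_eq_pow_val, ← Units.val_mul, h1]
    rw [h2]
    exact Finset.mem_insert_of_mem (Finset.mem_singleton_self _)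

variable {F : Type u} [Field F]

theorem bruhat (g : PS F) : (∃ a x, g = h a * u x) ∨ ∃ x a y, g = u x * w * h a * u y := by
  obtain ⟨A, rfl⟩ := QuotientGroup.mk_surjective g
  have hdet : A.1 0 0 * A.1 1 1 - A.1 0 1 * A.1 1 0 = 1 := by
    rw [← Matrix.det_fin_two]
    exact A.2
  by_cases hr : A.1 1 0 = 0
  · left
    rw [hr, mul_zero, sub_zero] at hdet
    have hp : A.1 0 0 ≠ 0 := left_ne_zero_of_mul (a := A.1 0 0) (b := A.1 1 1) (by
      rw [hdet]
      exact one_ne_zero)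
    refine ⟨Units.mk0 _ hp, A.1 0 1 / A.1 0 0, ?_⟩
    unfold h u
    rw [← QuotientGroup.mk_mul]
    congr 1
    apply Subtype.ext
    show A.1 = !![A.1 0 0, 0; 0, _] * !![1, A.1 0 1 / A.1 0 0; 0, 1]
    rw [Matrix.mul_fin_two]
    ext i j
    fin_cases i <;> fin_cases j
    · simp
    · simp
      field_simp
    · simpa using hr
    · simp
      exact eq_inv_of_mul_eq_one_right hdet
  · right
    refine ⟨A.1 0 0 / A.1 1 0, Units.mk0 (-A.1 1 0) (neg_ne_zero.2 hr), A.1 1 1 / A.1 1 0, ?_⟩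
    unfold h u w
    rw [← QuotientGroup.mk_mul, ← QuotientGroup.mk_mul, ← QuotientGroup.mk_mul]
    congr 1
    apply Subtype.ext
    show A.1 = !![1, A.1 0 0 / A.1 1 0; 0, 1] * !![0, 1; -1, 0] *
      !![-A.1 1 0, 0; 0, (-A.1 1 0)⁻¹] * !![1, A.1 1 1 / A.1 1 0; 0, 1]
    rw [Matrix.mul_fin_two, Matrix.mul_fin_two, Matrix.mul_fin_two]
    ext i j
    fin_cases i <;> fin_cases j
    · simp
      field_simp
    · simp
      field_simp
      linear_combination -hdet
    · simp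
    · simp
      field_simp

end PL3.S89
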