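import Pool.Agent.PL3.OrbS97
import Pool.Agent.PL3.GenS3
import Pool.Agent.PL3.NumS32

/-!
# PL3/ShortS97: the groups PSL(2, F) satisfy the condition, short route (helper97)
-/

set_option autoImplicit false

namespace PL3.S97

universe u

theorem psl_main (L : ℕ) : ∃ q0 : ℕ, ∀ (F : Type u) [Field F] [Finite F], q0 ≤ Nat.card F →
    SR32.oo (MulAut (Matrix.ProjectiveSpecialLinearGroup (Fin 2) F)) ^ L ≤
      SR32.om (Matrix.ProjectiveSpecialLinearGroup (Fin 2) F) := by
  obtain ⟨q0, h⟩ := PL3.S32.num_main.{u} 12 L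
  refine ⟨q0, fun F _ _ hq => ?_⟩
  have h1 : Finite (Matrix.ProjectiveSpecialLinearGroup (Fin 2) F) := Quotient.finite _
  have h2 : Finite (MulAut (Matrix.ProjectiveSpecialLinearGroup (Fin 2) F)) :=
    Finite.of_injective (fun φ : MulAut (Matrix.ProjectiveSpecialLinearGroup (Fin 2) F) =>
      (φ : Matrix.ProjectiveSpecialLinearGroup (Fin 2) F →
        Matrix.ProjectiveSpecialLinearGroup (Fin 2) F)) DFunLike.coe_injective
  exact h _ (Nat.card F) _ hq (PL3.S3.card_aut F) (om_ge F)

end PL3.S97
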