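import Pool.Agent.PL3.Mat

/-!
# PL3/SylS52: Sylow subgroups
-/

set_option autoImplicit false

namespace PL3.S52

open Matrix

universe u

theorem card_SL (F : Type u) [Field F] [Fintype F] :
    Nat.card (SpecialLinearGroup (Fin 2) F) = (Fintype.card F ^ 2 - 1) * Fintype.card F := by
  classical
  have hq : 1 < Fintype.card F := Fintype.one_lt_card
  obtain ⟨q, hq'⟩ : ∃ q, q = Fintype.card F := ⟨_, rfl⟩
  have h1 : (SpecialLinearGroup.toGL (n := Fin 2) (R := F)).range =
      (GeneralLinearGroup.det (n := Fin 2) (R := F)).ker := by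
    ext g
    constructor
    · rintro ⟨s, rfl⟩
      rw [MonoidHom.mem_ker]
      apply Units.ext
      exact s.2
    · intro hg
      rw [MonoidHom.mem_ker] at hg
      have h2 : (g : Matrix (Fin 2) (Fin 2) F).det = 1 := by
        have := congrArg Units.val hg
        exact this
      exact ⟨⟨g, h2⟩, Units.ext rfl⟩
  have h2 : Nat.card (SpecialLinearGroup (Fin 2) F) =
      Nat.card (GeneralLinearGroup.det (n := Fin 2) (R := F)).ker := by
    rw [← h1]
    exact Nat.card_congr
      (MonoidHom.ofInjective (SpecialLinearGroup.toGL_injective (n := Fin 2) (R := F))).toEquiv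
  have h3 := (GeneralLinearGroup.det (n := Fin 2) (R := F)).ker.card_mul_index
  have h4 : (GeneralLinearGroup.det (n := Fin 2) (R := F)).ker.index = q - 1 := by
    rw [Subgroup.index_ker, MonoidHom.range_eq_top.2 GeneralLinearGroup.det_surjective, hq']
    rw [Nat.card_congr (Subgroup.topEquiv (G := Fˣ)).toEquiv, Nat.card_eq_fintype_card,
      Fintype.card_units]
  rw [← h2, h4, Matrix.card_GL_field, Fin.prod_univ_two] at h3
  rw [← hq'] at hq h3 ⊢
  simp only [Fin.val_zero, Fin.val_one, pow_zero, pow_one] at h3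
  have h5 : q ^ 2 - q = q * (q - 1) := by
    rw [sq, Nat.mul_sub, Nat.mul_one]
  rw [h5, ← Nat.mul_assoc] at h3
  exact Nat.eq_of_mul_eq_mul_right (by omega) h3

/-- the group of the upper unitriangular elements -/
noncomputable def UG (F : Type u) [Field F] : Subgroup (PS F) :=
  (MonoidHom.mk' (fun x : Multiplicative F => u x.toAdd) (fun x y => u_add _ _)).range

theorem mem_UG {F : Type u} [Field F] {g : PS F} : g ∈ UG F ↔ ∃ x, g = u x := by
  constructor
  · rintro ⟨x, rfl⟩
    exact ⟨x.toAdd, rfl⟩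
  · rintro ⟨x, rfl⟩
    exact ⟨Multiplicative.ofAdd x, rfl⟩

theorem card_UG (F : Type u) [Field F] : Nat.card (UG F) = Nat.card F := by
  have hinj : Function.Injective
      (MonoidHom.mk' (fun x : Multiplicative F => u x.toAdd) (fun x y => u_add _ _)) :=
    fun x y e => Multiplicative.toAdd.injective (u_inj (F := F) e)
  exact (Nat.card_congr (MonoidHom.ofInjective hinj).toEquiv).symm

theorem sylow_U {F : Type u} [Field F] [Finite F] (α : MulAut (PS F)) :
    ∃ s : PS F, ∀ x, ∃ y, s * α (u x) * s⁻¹ = u y := by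
  classical
  have := Fintype.ofFinite F
  obtain ⟨p, hchar⟩ := CharP.exists F
  obtain ⟨f, hp, hf⟩ := FiniteField.card F p
  have := Fact.mk hp
  have hU : IsPGroup p (UG F) := by
    apply IsPGroup.of_card (n := (f : ℕ))
    rw [card_UG, Nat.card_eq_fintype_card, hf]
  have hidx : ¬ p ∣ (UG F).index := by
    intro hdvd
    have h1 := (UG F).card_mul_index
    have h2 : Nat.card (PS F) ∣ Nat.card (SpecialLinearGroup (Fin 2) F) :=
      Subgroup.card_quotient_dvd_card _
    rw [← h1, card_SL, card_UG, Nat.card_eq_fintype_card, Nat.mul_comm] at h2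
    have hq : 0 < Fintype.card F := Fintype.card_pos
    have h3 : (UG F).index ∣ Fintype.card F ^ 2 - 1 := Nat.dvd_of_mul_dvd_mul_right hq h2
    have h4 : p ∣ Fintype.card F ^ 2 - 1 := hdvd.trans h3
    have h5 : p ∣ Fintype.card F ^ 2 := by
      rw [hf, ← pow_mul]
      exact dvd_pow_self p (Nat.mul_pos f.pos (by norm_num)).ne'
    have h6 : 1 ≤ Fintype.card F ^ 2 := Nat.one_le_pow _ _ hq
    have h7 : p ∣ 1 := by
      have h8 := (Nat.dvd_add_right h4).1 (show p ∣ Fintype.card F ^ 2 - 1 + 1 by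
        rwa [Nat.sub_add_cancel h6])
      exact h8
    exact hp.one_lt.ne' (Nat.dvd_one.1 h7)
  have : Finite (SpecialLinearGroup (Fin 2) F) := inferInstance
  have : Finite (PS F) := Quotient.finite _
  have hV : IsPGroup p ((UG F).map α.toMonoidHom) := hU.map _
  have hidx' : ¬ p ∣ ((UG F).map α.toMonoidHom).index := by
    rw [show ((UG F).map α.toMonoidHom).index = (UG F).index from (UG F).index_map_equiv α]
    exact hidx
  obtain ⟨s, hs⟩ := MulAction.exists_smul_eq (PS F) (hV.toSylow hidx') (hU.toSylow hidx)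
  refine ⟨s, fun x => ?_⟩
  have h2 : s * α (u x) * s⁻¹ ∈
      ((s • hV.toSylow hidx' : Sylow p (PS F)) : Subgroup (PS F)) := by
    rw [Sylow.coe_subgroup_smul]
    exact Subgroup.smul_mem_pointwise_smul (α (u x)) (MulAut.conj s) _
      (show α (u x) ∈ ((hV.toSylow hidx' : Sylow p (PS F)) : Subgroup (PS F)) from
        ⟨u x, mem_UG.2 ⟨x, rfl⟩, rfl⟩)
  rw [hs] at h2
  have h1 : s * α (u x) * s⁻¹ ∈ UG F := h2
  exact mem_UG.1 h1

end PL3.S52
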